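import Mathlib

/-!
# A continuous probability measure on [0,1] which looks like a lattice measure at infinitely
many frequencies
-/

set_option autoImplicit false

open MeasureTheory Set Filter Topology
open scoped ENNReal

namespace Pool.Agent.Y257.HM.Cantor

/-- the sizes `3^(-j^2)` -/
noncomputable def a (j : ℕ) : ℝ := (1 / 3 : ℝ) ^ (j ^ 2)

theorem a_pos (j : ℕ) : 0 < a j := by unfold a; positivity

theorem a_tail (k j : ℕ) : a (j + (k + 1)) ≤ a k * (1 / 3) ^ (2 * k + 1) * (1 / 3) ^ j := by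
  unfold a
  rw [← pow_add, ← pow_add]
  apply pow_le_pow_of_le_one (by norm_num) (by norm_num)
  nlinarith [Nat.zero_le (k * j), Nat.zero_le (j ^ 2)]

theorem a_le (j : ℕ) : a j ≤ (1 / 3) ^ j := by
  unfold a
  apply pow_le_pow_of_le_one (by norm_num) (by norm_num)
  nlinarith [Nat.zero_le j, sq_nonneg ((j : ℤ) - 1), Nat.le_self_pow (n := 2) (by norm_num) j]

theorem a_summable : Summable a :=
  Summable.of_nonneg_of_le (fun j => (a_pos j).le) a_le
    (summable_geometric_of_lt_one (by norm_num) (by norm_num))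

/-- the digit sum -/
noncomputable def S (θ : ℕ → Bool) : ℝ := ∑' j, if θ j then a j else 0

theorem term_nonneg (θ : ℕ → Bool) (j : ℕ) : 0 ≤ (if θ j then a j else 0) := by
  split_ifs
  · exact (a_pos j).le
  · exact le_rfl

theorem term_le (θ : ℕ → Bool) (j : ℕ) : (if θ j then a j else 0) ≤ a j := by
  split_ifs
  · exact le_rfl
  · exact (a_pos j).le

theorem term_summable (θ : ℕ → Bool) : Summable (fun j => if θ j then a j else 0) :=
  Summable.of_nonneg_of_le (term_nonneg θ) (term_le θ) a_summable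

/-- the tail of the digit sum -/
noncomputable def R (k : ℕ) (θ : ℕ → Bool) : ℝ :=
  ∑' j, if θ (j + (k + 1)) then a (j + (k + 1)) else 0

theorem S_split (k : ℕ) (θ : ℕ → Bool) :
    S θ = (∑ j ∈ Finset.range (k + 1), if θ j then a j else 0) + R k θ := by
  unfold S R
  exact ((term_summable θ).sum_add_tsum_nat_add (k + 1)).symm

theorem R_nonneg (k : ℕ) (θ : ℕ → Bool) : 0 ≤ R k θ :=
  tsum_nonneg fun j => term_nonneg θ (j + (k + 1))

theorem R_le (k : ℕ) (θ : ℕ → Bool) : R k θ ≤ a k * (1 / 3) ^ (2 * k) / 2 := by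
  have hg : Summable (fun j : ℕ => a k * (1 / 3) ^ (2 * k + 1) * (1 / 3 : ℝ) ^ j) :=
    (summable_geometric_of_lt_one (by norm_num) (by norm_num)).mul_left _
  have h1 : R k θ ≤ ∑' j : ℕ, a k * (1 / 3) ^ (2 * k + 1) * (1 / 3 : ℝ) ^ j := by
    unfold R
    apply Summable.tsum_le_tsum _ _ hg
    · intro j
      exact (term_le θ _).trans (a_tail k j)
    · exact Summable.of_nonneg_of_le (fun j => term_nonneg θ _)
        (fun j => (term_le θ _).trans (a_tail k j)) hg
  rw [tsum_mul_left, tsum_geometric_of_lt_one (by norm_num) (by norm_num)] at h1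
  refine h1.trans (le_of_eq ?_)
  rw [pow_succ]
  ring

theorem a_zero_le_one (k : ℕ) : a k ≤ 1 := by
  unfold a
  exact pow_le_one₀ (by norm_num) (by norm_num)

theorem S_nonneg (θ : ℕ → Bool) : 0 ≤ S θ := tsum_nonneg (term_nonneg θ)

theorem S_le (θ : ℕ → Bool) : S θ ≤ 3 / 2 := by
  rw [S_split 0 θ]
  have h1 := R_le 0 θ
  have h2 : a 0 = 1 := by simp [a]
  rw [h2] at h1
  simp only [zero_add, Finset.sum_range_one]
  have h3 := term_le θ 0
  rw [h2] at h3
  rw [h2]
  norm_num at h1
  linarith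

theorem S_injective : Function.Injective S := by
  -- one-sided version
  have key : ∀ θ θ' : ℕ → Bool, ∀ k : ℕ, (∀ j < k, θ j = θ' j) → θ k = true → θ' k = false →
      S θ' < S θ := by
    intro θ θ' k hlt h1 h2
    rw [S_split k θ, S_split k θ', Finset.sum_range_succ, Finset.sum_range_succ]
    have h3 : (∑ j ∈ Finset.range k, if θ' j then a j else 0) =
        ∑ j ∈ Finset.range k, if θ j then a j else 0 := by
      apply Finset.sum_congr rfl
      intro j hj
      rw [hlt j (Finset.mem_range.mp hj)]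
    rw [h3, h1, h2]
    have h4 := R_nonneg k θ
    have h5 := R_le k θ'
    have h6 : a k * (1 / 3 : ℝ) ^ (2 * k) / 2 < a k := by
      have h7 : (1 / 3 : ℝ) ^ (2 * k) ≤ 1 := pow_le_one₀ (by norm_num) (by norm_num)
      have h8 := a_pos k
      nlinarith
    simp only [if_true, Bool.false_eq_true, if_false]
    linarith
  intro θ θ' h
  by_contra hne
  have hex : ∃ k, θ k ≠ θ' k := by
    by_contra hcon
    push_neg at hcon
    exact hne (funext hcon)
  classical
  have h1 := Nat.find_spec hex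
  have h2 : ∀ j < Nat.find hex, θ j = θ' j := fun j hj => by
    simpa using Nat.find_min hex hj
  set k := Nat.find hex
  rcases hb : θ k with _ | _
  · have h3 : θ' k = true := by
      rw [hb] at h1
      revert h1
      cases θ' k <;> simp
    have := key θ' θ k (fun j hj => (h2 j hj).symm) h3 hb
    linarith
  · have h3 : θ' k = false := by
      rw [hb] at h1
      revert h1
      cases θ' k <;> simp
    have := key θ θ' k h2 hb h3
    linarith

theorem S_continuous : Continuous S := by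
  unfold S
  apply continuous_tsum (u := a)
  · intro j
    have h1 : Continuous (fun b : Bool => if b then a j else 0) := continuous_of_discreteTopology
    exact h1.comp (continuous_apply j)
  · exact a_summable
  · intro j θ
    rw [Real.norm_eq_abs, abs_of_nonneg (term_nonneg θ j)]
    exact term_le θ j

/-- At the frequency `3^(k^2)` the finite part of the digit sum is an integer. -/
theorem S_int (k : ℕ) (θ : ℕ → Bool) :
    ∃ m : ℤ, (3 : ℝ) ^ (k ^ 2) * S θ = m + 3 ^ (k ^ 2) * R k θ := by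
  have h1 : ∃ m : ℤ, (3 : ℝ) ^ (k ^ 2) *
      (∑ j ∈ Finset.range (k + 1), if θ j then a j else 0) = m := by
    refine ⟨∑ j ∈ Finset.range (k + 1), if θ j then 3 ^ (k ^ 2 - j ^ 2) else 0, ?_⟩
    push_cast
    rw [Finset.mul_sum]
    apply Finset.sum_congr rfl
    intro j hj
    split_ifs
    · have hjk : j ^ 2 ≤ k ^ 2 := Nat.pow_le_pow_left (Nat.lt_succ_iff.mp (Finset.mem_range.mp hj)) 2
      unfold a
      rw [one_div, inv_pow, ← div_eq_mul_inv, div_eq_iff (by positivity), ← pow_add,
        Nat.sub_add_cancel hjk]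
    · simp
  obtain ⟨m, hm⟩ := h1
  exact ⟨m, by rw [S_split k θ, mul_add, hm]⟩

/-- the point of `(0,1)` attached to a digit sequence -/
noncomputable def X (θ : ℕ → Bool) : ℝ := Real.exp (-(Real.pi + 2 * Real.pi * S θ))

theorem X_injective : Function.Injective X := by
  intro θ θ' h
  unfold X at h
  have h1 := Real.exp_injective h
  apply S_injective
  have h2 := Real.pi_pos
  have h3 : 2 * Real.pi * S θ = 2 * Real.pi * S θ' := by linarith
  exact mul_left_cancel₀ (by positivity) h3

theorem X_measurable : Measurable X := by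
  apply Continuous.measurable
  unfold X
  have := S_continuous
  fun_prop

theorem X_log (θ : ℕ → Bool) : Real.log (X θ) = -(Real.pi + 2 * Real.pi * S θ) := Real.log_exp _

theorem X_pos (θ : ℕ → Bool) : 0 < X θ := Real.exp_pos _

theorem X_le (θ : ℕ → Bool) : X θ ≤ 1 := by
  unfold X
  rw [Real.exp_le_one_iff]
  have h1 := Real.pi_pos
  have h2 := S_nonneg θ
  have h3 := mul_nonneg (by positivity : (0 : ℝ) ≤ 2 * Real.pi) h2
  linarith

theorem X_ge (θ : ℕ → Bool) : Real.exp (-(4 * Real.pi)) ≤ X θ := by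
  unfold X
  rw [Real.exp_le_exp]
  have h1 := Real.pi_pos
  have h2 := S_le θ
  nlinarith

/-- The frequency `3^(k^2)` turns all phases to nearly `π`. -/
theorem phase (k : ℕ) (θ : ℕ → Bool) (t : ℝ) :
    |Real.cos (t + 3 ^ (k ^ 2) * Real.log (X θ)) + Real.cos t| ≤ Real.pi * (1 / 3) ^ (2 * k) := by
  obtain ⟨m, hm⟩ := S_int k θ
  set σ : ℝ := 2 * Real.pi * (3 ^ (k ^ 2) * R k θ) with hσ
  have hπ := Real.pi_pos
  have hσ0 : 0 ≤ σ := by
    have := R_nonneg k θ
    positivity
  have hσ1 : σ ≤ Real.pi * (1 / 3) ^ (2 * k) := by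
    have h1 := R_le k θ
    have h2 : (3 : ℝ) ^ (k ^ 2) * a k = 1 := by
      unfold a
      rw [one_div, inv_pow, mul_inv_cancel₀ (by positivity)]
    have h3 : (3 : ℝ) ^ (k ^ 2) * R k θ ≤ (1 / 3) ^ (2 * k) / 2 := by
      calc (3 : ℝ) ^ (k ^ 2) * R k θ ≤ 3 ^ (k ^ 2) * (a k * (1 / 3) ^ (2 * k) / 2) := by gcongr
        _ = (3 ^ (k ^ 2) * a k) * ((1 / 3) ^ (2 * k) / 2) := by ring
        _ = _ := by rw [h2, one_mul]
    rw [hσ]
    nlinarith
  -- the odd multiple of π
  obtain ⟨q, hq⟩ : ∃ q : ℕ, 3 ^ (k ^ 2) = 2 * q + 1 := by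
    have : Odd (3 ^ (k ^ 2)) := Odd.pow (by decide)
    exact this
  have hq' : (3 : ℝ) ^ (k ^ 2) = 2 * q + 1 := by exact_mod_cast hq
  have h4 : t + 3 ^ (k ^ 2) * Real.log (X θ) =
      t - σ - Real.pi - ((q : ℤ) + m : ℤ) * (2 * Real.pi) := by
    rw [X_log]
    have h5 : (3 : ℝ) ^ (k ^ 2) * -(Real.pi + 2 * Real.pi * S θ) =
        - (3 ^ (k ^ 2) * Real.pi) - 2 * Real.pi * (3 ^ (k ^ 2) * S θ) := by ring
    rw [h5, hm, hσ]
    push_cast
    rw [hq']
    ring
  rw [h4, Real.cos_sub_int_mul_two_pi, Real.cos_sub_pi]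
  have h6 : |Real.cos t - Real.cos (t - σ)| ≤ σ := by
    have h7 := Real.abs_cos_sub_cos_le (x := t) (y := t - σ)
    have h8 : t - (t - σ) = σ := by ring
    rw [h8, abs_of_nonneg hσ0] at h7
    exact h7
  have h9 : -Real.cos (t - σ) + Real.cos t = Real.cos t - Real.cos (t - σ) := by ring
  rw [h9]
  exact h6.trans hσ1

/-- the fair coin -/
noncomputable def coin : Measure Bool := (PMF.uniformOfFintype Bool).toMeasure

instance : IsProbabilityMeasure coin := by unfold coin; infer_instance

theorem coin_singleton (b : Bool) : coin {b} = 1 / 2 := by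
  unfold coin
  rw [PMF.toMeasure_apply_singleton _ _ (measurableSet_singleton b),
    PMF.uniformOfFintype_apply]
  simp

/-- coin tossing -/
noncomputable def P : Measure (ℕ → Bool) := Measure.infinitePi (fun _ => coin)

instance : IsProbabilityMeasure P := by unfold P; infer_instance

theorem P_singleton (θ : ℕ → Bool) : P {θ} = 0 := by
  have h1 : ∀ n : ℕ, P {θ} ≤ (1 / 2 : ℝ≥0∞) ^ n := by
    intro n
    have h2 : ({θ} : Set (ℕ → Bool)) ⊆ Set.pi (Finset.range n : Set ℕ) (fun i => {θ i}) := by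
      intro x hx i _
      rw [mem_singleton_iff] at hx
      rw [hx]; rfl
    refine (measure_mono h2).trans (le_of_eq ?_)
    unfold P
    rw [Measure.infinitePi_pi _ (fun i _ => measurableSet_singleton _)]
    simp [coin_singleton]
  have h3 : Tendsto (fun n : ℕ => (1 / 2 : ℝ≥0∞) ^ n) atTop (𝓝 0) := by
    apply ENNReal.tendsto_pow_atTop_nhds_zero_of_lt_one
    rw [one_div]
    exact ENNReal.inv_lt_one.mpr (by norm_num)
  exact le_antisymm (ge_of_tendsto' h3 h1) bot_le

theorem exists_cantor : ∃ ν : Measure ℝ, IsProbabilityMeasure ν ∧ ν (Icc 0 1)ᶜ = 0 ∧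
    (∃ δ : ℝ, 0 < δ ∧ ν (Iio δ) = 0) ∧ (∀ x, ν {x} = 0) ∧
    ∀ ε : ℝ, 0 < ε → ∃ N : ℝ, ∀ᵐ y ∂ν, ∀ t : ℝ,
      |Real.cos (t + N * Real.log y) + Real.cos t| ≤ ε := by
  refine ⟨P.map X, Measure.isProbabilityMeasure_map X_measurable.aemeasurable, ?_, ?_, ?_, ?_⟩
  · rw [Measure.map_apply X_measurable measurableSet_Icc.compl]
    have : X ⁻¹' (Icc 0 1)ᶜ = ∅ := by
      ext θ
      simp only [mem_preimage, mem_compl_iff, mem_Icc, mem_empty_iff_false, iff_false, not_not]
      exact ⟨(X_pos θ).le, X_le θ⟩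
    rw [this, measure_empty]
  · refine ⟨Real.exp (-(4 * Real.pi)), Real.exp_pos _, ?_⟩
    rw [Measure.map_apply X_measurable measurableSet_Iio]
    have : X ⁻¹' (Iio (Real.exp (-(4 * Real.pi)))) = ∅ := by
      ext θ
      simp only [mem_preimage, mem_Iio, mem_empty_iff_false, iff_false, not_lt]
      exact X_ge θ
    rw [this, measure_empty]
  · intro x
    rw [Measure.map_apply X_measurable (measurableSet_singleton x)]
    by_cases hx : ∃ θ, X θ = x
    · obtain ⟨θ, rfl⟩ := hx
      have : X ⁻¹' {X θ} = {θ} := by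
        ext θ'
        simp only [mem_preimage, mem_singleton_iff]
        exact X_injective.eq_iff
      rw [this, P_singleton]
    · have : X ⁻¹' {x} = ∅ := by
        ext θ'
        simp only [mem_preimage, mem_singleton_iff, mem_empty_iff_false, iff_false]
        exact fun h => hx ⟨θ', h⟩
      rw [this, measure_empty]
  · intro ε hε
    obtain ⟨k, hk⟩ := exists_pow_lt_of_lt_one (show 0 < ε / Real.pi by positivity)
      (show (1 / 3 : ℝ) < 1 by norm_num)
    refine ⟨3 ^ (k ^ 2), ?_⟩
    have hall : ∀ θ : ℕ → Bool, ∀ t : ℝ,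
        |Real.cos (t + 3 ^ (k ^ 2) * Real.log (X θ)) + Real.cos t| ≤ ε := by
      intro θ t
      refine (phase k θ t).trans ?_
      have h1 : (1 / 3 : ℝ) ^ (2 * k) ≤ (1 / 3) ^ k :=
        pow_le_pow_of_le_one (by norm_num) (by norm_num) (by omega)
      have h2 : (1 / 3 : ℝ) ^ (2 * k) ≤ ε / Real.pi := h1.trans hk.le
      rw [le_div_iff₀ Real.pi_pos] at h2
      linarith
    have hr : ∀ᵐ y ∂(P.map X), y ∈ range X := by
      rw [ae_iff]
      have hcomp : IsCompact (range X) := by
        apply isCompact_range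
        unfold X
        have := S_continuous
        fun_prop
      have hms : MeasurableSet {y | ¬ y ∈ range X} := hcomp.measurableSet.compl
      rw [Measure.map_apply X_measurable hms]
      have : X ⁻¹' {y | ¬ y ∈ range X} = ∅ := by
        ext θ
        simp
      rw [this, measure_empty]
    filter_upwards [hr] with y hy t
    obtain ⟨θ, rfl⟩ := hy
    exact hall θ t

end Pool.Agent.Y257.HM.Cantor
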