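import Mathlib
import Pool.Agent.Results.MP_d888c7_an.NoBVSolution

/-!
# Moment sequences of finite measures on [0,1]: sums, products, geometric series
-/

set_option autoImplicit false

open MeasureTheory Set Filter Topology
open scoped ENNReal

namespace Pool.Agent.Y257.HM

open Pool.Agent.Results.MP_d888c7_an.NoBVSolution (IsWeight lam IsRSIntegral)

/-- `l` is the moment sequence of a finite measure carried by `[0,1]`. -/
def IsMom (l : ℕ → ℝ) : Prop :=
  ∃ μ : Measure ℝ, IsFiniteMeasure μ ∧ μ (Icc 0 1)ᶜ = 0 ∧ ∀ n : ℕ, ∫ x, x ^ n ∂μ = l n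

theorem ae_mem {μ : Measure ℝ} (h : μ (Icc 0 1)ᶜ = 0) : ∀ᵐ x ∂μ, x ∈ Icc (0 : ℝ) 1 :=
  measure_eq_zero_iff_ae_notMem.mp h |>.mono fun x hx => by simpa using hx

theorem integrable_of_bdd {μ : Measure ℝ} [IsFiniteMeasure μ] (h : μ (Icc 0 1)ᶜ = 0) {f : ℝ → ℝ}
    (hf : Measurable f) {C : ℝ} (hC : ∀ x ∈ Icc (0 : ℝ) 1, |f x| ≤ C) : Integrable f μ :=
  Integrable.mono' (integrable_const C) hf.aestronglyMeasurable
    ((ae_mem h).mono fun x hx => by simpa using hC x hx)

theorem integrable_pow {μ : Measure ℝ} [IsFiniteMeasure μ] (h : μ (Icc 0 1)ᶜ = 0) (n : ℕ) :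
    Integrable (fun x : ℝ => x ^ n) μ := by
  refine integrable_of_bdd h (by fun_prop) (C := 1) fun x hx => ?_
  rw [abs_of_nonneg (pow_nonneg hx.1 n)]
  exact pow_le_one₀ hx.1 hx.2

theorem isMom_one : IsMom (fun _ => 1) := by
  refine ⟨Measure.dirac 1, inferInstance, ?_, ?_⟩
  · rw [Measure.dirac_apply' _ (measurableSet_Icc.compl)]
    simp
  · intro n
    simp

theorem isMom_zero : IsMom (fun _ => 0) :=
  ⟨0, inferInstance, by simp, fun n => by simp⟩

theorem IsMom.add {a b : ℕ → ℝ} (ha : IsMom a) (hb : IsMom b) : IsMom (fun n => a n + b n) := by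
  obtain ⟨μ, hμ, hμ0, hμn⟩ := ha
  obtain ⟨ν, hν, hν0, hνn⟩ := hb
  refine ⟨μ + ν, inferInstance, ?_, ?_⟩
  · rw [Measure.add_apply, hμ0, hν0, add_zero]
  · intro n
    rw [integral_add_measure (integrable_pow hμ0 n) (integrable_pow hν0 n), hμn, hνn]

theorem IsMom.smul {a : ℕ → ℝ} (ha : IsMom a) {c : ℝ} (hc : 0 ≤ c) : IsMom (fun n => c * a n) := by
  obtain ⟨μ, hμ, hμ0, hμn⟩ := ha
  refine ⟨ENNReal.ofReal c • μ, ?_, ?_, ?_⟩
  · exact μ.smul_finite ENNReal.ofReal_ne_top
  · rw [Measure.smul_apply, hμ0, smul_zero]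
  · intro n
    rw [integral_smul_measure, ENNReal.toReal_ofReal hc, hμn, smul_eq_mul]

theorem mconv_Icc {μ ν : Measure ℝ} [IsFiniteMeasure μ] [IsFiniteMeasure ν]
    (hμ : μ (Icc 0 1)ᶜ = 0) (hν : ν (Icc 0 1)ᶜ = 0) : (μ.mconv ν) (Icc 0 1)ᶜ = 0 := by
  have h2 : ∀ᵐ z ∂(μ.prod ν), z.1 ∈ Icc (0 : ℝ) 1 ∧ z.2 ∈ Icc (0 : ℝ) 1 := by
    refine (Measure.quasiMeasurePreserving_fst.ae (ae_mem hμ)).and
      (Measure.quasiMeasurePreserving_snd.ae (ae_mem hν))
  rw [Measure.mconv, Measure.map_apply (by fun_prop) measurableSet_Icc.compl]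
  apply measure_mono_null _ (ae_iff.mp h2)
  intro z hz hz'
  apply hz
  exact ⟨mul_nonneg hz'.1.1 hz'.2.1, mul_le_one₀ hz'.1.2 hz'.2.1 hz'.2.2⟩

theorem mconv_mom {μ ν : Measure ℝ} [IsFiniteMeasure μ] [IsFiniteMeasure ν] (n : ℕ) :
    ∫ x, x ^ n ∂(μ.mconv ν) = (∫ x, x ^ n ∂μ) * ∫ x, x ^ n ∂ν := by
  rw [Measure.mconv, integral_map (by fun_prop) (by fun_prop)]
  simp only [mul_pow]
  exact integral_prod_mul (fun x : ℝ => x ^ n) (fun x : ℝ => x ^ n)

theorem IsMom.mul {a b : ℕ → ℝ} (ha : IsMom a) (hb : IsMom b) : IsMom (fun n => a n * b n) := by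
  obtain ⟨μ, hμ, hμ0, hμn⟩ := ha
  obtain ⟨ν, hν, hν0, hνn⟩ := hb
  refine ⟨μ.mconv ν, inferInstance, mconv_Icc hμ0 hν0, ?_⟩
  intro n
  rw [mconv_mom, hμn, hνn]

/-- The convolution powers of `μ`. -/
noncomputable def cpow (μ : Measure ℝ) : ℕ → Measure ℝ
  | 0 => Measure.dirac 1
  | (k + 1) => (cpow μ k).mconv μ

theorem cpow_spec (μ : Measure ℝ) [hμ : IsFiniteMeasure μ] (hμ0 : μ (Icc 0 1)ᶜ = 0) (k : ℕ) :
    IsFiniteMeasure (cpow μ k) ∧ (cpow μ k) (Icc 0 1)ᶜ = 0 ∧
      ∀ n : ℕ, ∫ x, x ^ n ∂(cpow μ k) = (∫ x, x ^ n ∂μ) ^ k := by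
  induction k with
  | zero =>
    refine ⟨by unfold cpow; infer_instance, ?_, ?_⟩
    · unfold cpow
      rw [Measure.dirac_apply' _ (measurableSet_Icc.compl)]
      simp
    · intro n
      unfold cpow
      simp
  | succ k ih =>
    obtain ⟨h1, h2, h3⟩ := ih
    refine ⟨by unfold cpow; infer_instance, ?_, ?_⟩
    · unfold cpow
      exact mconv_Icc h2 hμ0
    · intro n
      unfold cpow
      rw [mconv_mom, h3, pow_succ]

theorem IsMom.nonneg {a : ℕ → ℝ} (ha : IsMom a) (n : ℕ) : 0 ≤ a n := by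
  obtain ⟨μ, hμ, hμ0, hμn⟩ := ha
  rw [← hμn]
  exact integral_nonneg_of_ae ((ae_mem hμ0).mono fun x hx => pow_nonneg hx.1 n)

theorem IsMom.le_zero {a : ℕ → ℝ} (ha : IsMom a) (n : ℕ) : a n ≤ a 0 := by
  obtain ⟨μ, hμ, hμ0, hμn⟩ := ha
  rw [← hμn, ← hμn]
  apply integral_mono_ae (integrable_pow hμ0 n) (integrable_pow hμ0 0)
  filter_upwards [ae_mem hμ0] with x hx
  simpa using pow_le_one₀ hx.1 hx.2

theorem IsMom.geom {a : ℕ → ℝ} (ha : IsMom a) (h1 : a 0 < 1) : IsMom (fun n => (1 - a n)⁻¹) := by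
  have hnn := ha.nonneg
  have hle := ha.le_zero
  obtain ⟨μ, hμ, hμ0, hμn⟩ := ha
  have hs := cpow_spec μ hμ0
  have hfin : ∀ k, IsFiniteMeasure (cpow μ k) := fun k => (hs k).1
  have hmass : ∀ k, (cpow μ k) univ = ENNReal.ofReal (a 0 ^ k) := by
    intro k
    have h2 := (hs k).2.2 0
    rw [hμn] at h2
    simp only [pow_zero, integral_const, smul_eq_mul, mul_one] at h2
    rw [← h2, Measure.real, ENNReal.ofReal_toReal (measure_ne_top _ _)]
  have hsumm : Summable (fun k => a 0 ^ k) := summable_geometric_of_lt_one (hnn 0) h1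
  have hfinS : IsFiniteMeasure (Measure.sum (cpow μ)) := by
    constructor
    rw [Measure.sum_apply _ MeasurableSet.univ]
    simp only [hmass]
    rw [← ENNReal.ofReal_tsum_of_nonneg (fun k => pow_nonneg (hnn 0) k) hsumm]
    exact ENNReal.ofReal_lt_top
  have hS0 : (Measure.sum (cpow μ)) (Icc 0 1)ᶜ = 0 := by
    rw [Measure.sum_apply _ measurableSet_Icc.compl]
    simp [(hs _).2.1]
  refine ⟨Measure.sum (cpow μ), hfinS, hS0, ?_⟩
  intro n
  have hI : Integrable (fun x : ℝ => x ^ n) (Measure.sum (cpow μ)) := integrable_pow hS0 n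
  rw [integral_sum_measure hI]
  simp only [(hs _).2.2, hμn]
  exact tsum_geometric_of_lt_one (hnn n) ((hle n).trans_lt h1)

/-- `l` is the difference of the moment sequences of two finite measures carried by `[0,1]`. -/
def IsDiff (l : ℕ → ℝ) : Prop := ∃ a b : ℕ → ℝ, IsMom a ∧ IsMom b ∧ ∀ n, l n = a n - b n

theorem IsMom.isDiff {a : ℕ → ℝ} (ha : IsMom a) : IsDiff a :=
  ⟨a, fun _ => 0, ha, isMom_zero, fun n => by simp⟩

theorem IsDiff.add {a b : ℕ → ℝ} (ha : IsDiff a) (hb : IsDiff b) : IsDiff (fun n => a n + b n) := by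
  obtain ⟨p, q, hp, hq, h⟩ := ha
  obtain ⟨p', q', hp', hq', h'⟩ := hb
  refine ⟨_, _, hp.add hp', hq.add hq', fun n => ?_⟩
  simp only [h, h']; ring

theorem IsDiff.neg {a : ℕ → ℝ} (ha : IsDiff a) : IsDiff (fun n => - a n) := by
  obtain ⟨p, q, hp, hq, h⟩ := ha
  refine ⟨q, p, hq, hp, fun n => ?_⟩
  simp only [h]; ring

theorem IsDiff.sub {a b : ℕ → ℝ} (ha : IsDiff a) (hb : IsDiff b) : IsDiff (fun n => a n - b n) := by
  have := ha.add hb.neg
  simpa [sub_eq_add_neg] using this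

theorem IsDiff.mul {a b : ℕ → ℝ} (ha : IsDiff a) (hb : IsDiff b) : IsDiff (fun n => a n * b n) := by
  obtain ⟨p, q, hp, hq, h⟩ := ha
  obtain ⟨p', q', hp', hq', h'⟩ := hb
  refine ⟨_, _, (hp.mul hp').add (hq.mul hq'), (hp.mul hq').add (hq.mul hp'), fun n => ?_⟩
  simp only [h, h']; ring

theorem isMom_const {c : ℝ} (hc : 0 ≤ c) : IsMom (fun _ => c) := by
  simpa using isMom_one.smul hc

/-- The set which carries the increment of the distribution function. -/
def B (t : ℝ) : Set ℝ := if 0 < t then Iic t else ∅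

theorem measurableSet_B (t : ℝ) : MeasurableSet (B t) := by
  unfold B
  split_ifs
  · exact measurableSet_Iic
  · exact MeasurableSet.empty

theorem B_mono : Monotone B := by
  intro s t hst x hx
  unfold B at hx ⊢
  split_ifs at hx with h1
  · rw [if_pos (h1.trans_le hst)]
    exact (mem_Iic.mp hx).trans hst
  · exact absurd hx (notMem_empty x)

/-- A positive moment sequence is solved by a nondecreasing function. -/
theorem IsMom.solution {l : ℕ → ℝ} (hl : IsMom l) :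
    ∃ β : ℝ → ℝ, Monotone β ∧ ∀ n : ℕ, IsRSIntegral (fun x => x ^ n) β (l n) := by
  obtain ⟨μ, hμ, hμ0, hμn⟩ := hl
  have hmono : Monotone (fun t => μ.real (B t)) := fun s t hst =>
    measureReal_mono (B_mono hst)
  refine ⟨fun t => μ.real (B t), hmono, ?_⟩
  intro n ε hε
  -- uniform continuity on [0,1]
  set C := μ.real univ with hC
  have hC0 : 0 ≤ C := measureReal_nonneg
  have huc : UniformContinuousOn (fun x : ℝ => x ^ n) (Icc 0 1) :=
    isCompact_Icc.uniformContinuousOn_of_continuous (by fun_prop)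
  obtain ⟨δ, hδ0, hδ⟩ := Metric.uniformContinuousOn_iff.mp huc (ε / (C + 1)) (by positivity)
  refine ⟨δ, hδ0, ?_⟩
  intro N t ξ ht0 htN h
  have hle0 : ∀ i ≤ N, 0 ≤ t i := by
    intro i
    induction i with
    | zero => intro _; rw [ht0]
    | succ i ih => intro hi; exact (ih (by omega)).trans (h i (by omega)).1
  have hle1 : ∀ k i, i + k = N → t i ≤ 1 := by
    intro k
    induction k with
    | zero => intro i hi; rw [← htN]; simp at hi; rw [hi]
    | succ k ih =>
      intro i hi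
      exact ((h i (by omega)).1).trans (ih (i + 1) (by omega))
  have hI := integrable_pow hμ0 n
  set F : ℝ → ℝ := fun s => ∫ x in B s, x ^ n ∂μ with hF
  have hF0 : F (t 0) = 0 := by
    simp [hF, ht0, B]
  have hF1 : F (t N) = l n := by
    rw [hF, htN, ← hμn]
    apply setIntegral_eq_integral_of_ae_compl_eq_zero
    filter_upwards [ae_mem hμ0] with x hx hx'
    exfalso
    apply hx'
    simp [B, hx.2]
  have htel : l n = ∑ i ∈ Finset.range N, (F (t (i + 1)) - F (t i)) := by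
    rw [Finset.sum_range_sub (fun i => F (t i)), hF0, hF1, sub_zero]
  have hterm : ∀ i ∈ Finset.range N,
      |(ξ i) ^ n * (μ.real (B (t (i + 1))) - μ.real (B (t i))) - (F (t (i + 1)) - F (t i))| ≤
        ε / (C + 1) * (μ.real (B (t (i + 1))) - μ.real (B (t i))) := by
    intro i hi
    have hi' := Finset.mem_range.mp hi
    obtain ⟨h1, h2, h3⟩ := h i hi'
    have hsub := B_mono h1
    have e1 : μ.real (B (t (i + 1))) - μ.real (B (t i)) = μ.real (B (t (i + 1)) \ B (t i)) := by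
      rw [measureReal_sdiff hsub (measurableSet_B _)]
    have e2 : F (t (i + 1)) - F (t i) = ∫ x in B (t (i + 1)) \ B (t i), x ^ n ∂μ := by
      rw [hF]
      simp only
      rw [setIntegral_sdiff (measurableSet_B _) hI.integrableOn hsub]
    rw [e1, e2]
    have e3 : (ξ i) ^ n * μ.real (B (t (i + 1)) \ B (t i)) =
        ∫ x in B (t (i + 1)) \ B (t i), (ξ i) ^ n ∂μ := by
      rw [setIntegral_const, smul_eq_mul, mul_comm]
    rw [e3, ← integral_sub (integrable_const _) hI.integrableOn, ← Real.norm_eq_abs]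
    apply norm_setIntegral_le_of_norm_le_const_ae' (by finiteness)
    filter_upwards [ae_mem hμ0] with x hx hxB
    rw [Real.norm_eq_abs]
    have hx1 : x ≤ t (i + 1) := by
      have := hxB.1
      unfold B at this
      split_ifs at this
      · exact this
      · exact absurd this (notMem_empty x)
    have hx0 : t i ≤ x := by
      have := hxB.2
      unfold B at this
      split_ifs at this with h4
      · exact (not_le.mp this).le
      · exact (not_lt.mp h4).trans hx.1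
    have hξ : ξ i ∈ Icc (0 : ℝ) 1 :=
      ⟨(hle0 i hi'.le).trans h3.1, h3.2.trans (hle1 (N - (i + 1)) (i + 1) (by omega))⟩
    have hd : dist (ξ i) x < δ := by
      rw [Real.dist_eq, abs_lt]
      constructor <;> linarith [h3.1, h3.2]
    exact (hδ _ hξ _ hx hd).le
  rw [htel, ← Finset.sum_sub_distrib]
  have hle : μ.real (B (t N)) - μ.real (B (t 0)) ≤ C := by
    have : μ.real (B (t N)) ≤ C := measureReal_mono (subset_univ _)
    linarith [measureReal_nonneg (μ := μ) (s := B (t 0))]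
  calc |∑ i ∈ Finset.range N, ((ξ i) ^ n * (μ.real (B (t (i + 1))) - μ.real (B (t i))) -
        (F (t (i + 1)) - F (t i)))|
      ≤ ∑ i ∈ Finset.range N, |(ξ i) ^ n * (μ.real (B (t (i + 1))) - μ.real (B (t i))) -
        (F (t (i + 1)) - F (t i))| := Finset.abs_sum_le_sum_abs _ _
    _ ≤ ∑ i ∈ Finset.range N, ε / (C + 1) * (μ.real (B (t (i + 1))) - μ.real (B (t i))) :=
        Finset.sum_le_sum hterm
    _ = ε / (C + 1) * (μ.real (B (t N)) - μ.real (B (t 0))) := by
        rw [← Finset.mul_sum, Finset.sum_range_sub (fun i => μ.real (B (t i)))]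
    _ ≤ ε / (C + 1) * C := by gcongr
    _ < ε := by
        rw [div_mul_eq_mul_div, div_lt_iff₀ (by positivity)]
        nlinarith

theorem IsRSIntegral.sub {f β γ : ℝ → ℝ} {I J : ℝ} (h1 : IsRSIntegral f β I)
    (h2 : IsRSIntegral f γ J) : IsRSIntegral f (fun x => β x - γ x) (I - J) := by
  intro ε hε
  obtain ⟨δ, hδ0, hδ⟩ := h1 (ε / 2) (by positivity)
  obtain ⟨δ', hδ0', hδ'⟩ := h2 (ε / 2) (by positivity)
  refine ⟨min δ δ', lt_min hδ0 hδ0', ?_⟩
  intro N t ξ ht0 htN h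
  have a1 := hδ N t ξ ht0 htN fun i hi =>
    ⟨(h i hi).1, (h i hi).2.1.trans_le (min_le_left _ _), (h i hi).2.2⟩
  have a2 := hδ' N t ξ ht0 htN fun i hi =>
    ⟨(h i hi).1, (h i hi).2.1.trans_le (min_le_right _ _), (h i hi).2.2⟩
  have e : ∑ i ∈ Finset.range N, f (ξ i) * ((fun x => β x - γ x) (t (i + 1)) -
      (fun x => β x - γ x) (t i)) - (I - J) =
      (∑ i ∈ Finset.range N, f (ξ i) * (β (t (i + 1)) - β (t i)) - I) -
      (∑ i ∈ Finset.range N, f (ξ i) * (γ (t (i + 1)) - γ (t i)) - J) := by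
    have : ∀ i, f (ξ i) * ((fun x => β x - γ x) (t (i + 1)) - (fun x => β x - γ x) (t i)) =
        f (ξ i) * (β (t (i + 1)) - β (t i)) - f (ξ i) * (γ (t (i + 1)) - γ (t i)) := by
      intro i; ring
    simp only [this, Finset.sum_sub_distrib]
    ring
  rw [e]
  have := abs_sub (∑ i ∈ Finset.range N, f (ξ i) * (β (t (i + 1)) - β (t i)) - I)
    (∑ i ∈ Finset.range N, f (ξ i) * (γ (t (i + 1)) - γ (t i)) - J)
  linarith

theorem bv_sub {f g : ℝ → ℝ} {s : Set ℝ} (hf : BoundedVariationOn f s)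
    (hg : BoundedVariationOn g s) : BoundedVariationOn (fun t => f t - g t) s := by
  refine ne_top_of_le_ne_top (ENNReal.add_ne_top.mpr ⟨hf, hg⟩)
    (?_ : eVariationOn (fun t => f t - g t) s ≤ eVariationOn f s + eVariationOn g s)
  apply iSup_le
  rintro ⟨n, u, hu, us⟩
  calc ∑ i ∈ Finset.range n, edist ((fun t => f t - g t) (u (i + 1))) ((fun t => f t - g t) (u i))
      ≤ ∑ i ∈ Finset.range n, (edist (f (u (i + 1))) (f (u i)) + edist (g (u (i + 1))) (g (u i))) := by
        apply Finset.sum_le_sum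
        intro i _
        simp only [edist_dist, Real.dist_eq]
        rw [← ENNReal.ofReal_add (abs_nonneg _) (abs_nonneg _)]
        apply ENNReal.ofReal_le_ofReal
        have := abs_sub (f (u (i + 1)) - f (u i)) (g (u (i + 1)) - g (u i))
        calc |f (u (i + 1)) - g (u (i + 1)) - (f (u i) - g (u i))|
            = |(f (u (i + 1)) - f (u i)) - (g (u (i + 1)) - g (u i))| := by congr 1; ring
          _ ≤ _ := this
    _ = ∑ i ∈ Finset.range n, edist (f (u (i + 1))) (f (u i)) +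
        ∑ i ∈ Finset.range n, edist (g (u (i + 1))) (g (u i)) := Finset.sum_add_distrib
    _ ≤ _ := add_le_add (eVariationOn.sum_le (f := f) (s := s) hu us)
        (eVariationOn.sum_le (f := g) (s := s) hu us)

theorem IsDiff.solution {l : ℕ → ℝ} (hl : IsDiff l) :
    ∃ β : ℝ → ℝ, BoundedVariationOn β (Icc 0 1) ∧
      ∀ n : ℕ, IsRSIntegral (fun x => x ^ n) β (l n) := by
  obtain ⟨a, b, ha, hb, h⟩ := hl
  obtain ⟨β, hβ, h1⟩ := ha.solution
  obtain ⟨γ, hγ, h2⟩ := hb.solution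
  have hbv : ∀ g : ℝ → ℝ, Monotone g → BoundedVariationOn g (Icc 0 1) := by
    intro g hg
    have h3 := (hg.monotoneOn (Icc (0 : ℝ) 1)).eVariationOn_eq (a := 0) (b := 1)
      (by simp) (by simp)
    rw [inter_self] at h3
    rw [BoundedVariationOn, h3]
    exact ENNReal.ofReal_ne_top
  refine ⟨fun x => β x - γ x, bv_sub (hbv β hβ) (hbv γ hγ), ?_⟩
  intro n
  rw [h n]
  exact IsRSIntegral.sub (h1 n) (h2 n)

end Pool.Agent.Y257.HM
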