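import Mathlib
import Pool.Agent.Y257.HM.Alg

/-!
# Monotone weights and measures on [0,1]
-/

set_option autoImplicit false

open MeasureTheory Set Filter Topology
open scoped ENNReal

namespace Pool.Agent.Y257.HM

open Pool.Agent.Results.MP_d888c7_an.NoBVSolution (IsWeight lam IsRSIntegral)

/-- the distribution function of a measure on the line -/
noncomputable def cdf' (ν : Measure ℝ) (x : ℝ) : ℝ := ν.real (Iic x)

theorem cdf'_mono (ν : Measure ℝ) [IsFiniteMeasure ν] : Monotone (cdf' ν) := fun _ _ h =>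
  measureReal_mono (Iic_subset_Iic.mpr h)

/-- Fubini: the moments of the distribution function. -/
theorem fub (ν : Measure ℝ) [IsFiniteMeasure ν] (hν : ν (Icc 0 1)ᶜ = 0) (n : ℕ) :
    ((n : ℝ) + 1) * ∫ x in (0 : ℝ)..1, cdf' ν x * x ^ n = ν.real univ - ∫ x, x ^ (n + 1) ∂ν := by
  have hm : Measurable (fun z : ℝ × ℝ => (Iic z.1).indicator (fun _ => (1 : ℝ)) z.2) := by
    have : (fun z : ℝ × ℝ => (Iic z.1).indicator (fun _ => (1 : ℝ)) z.2) =
        {z : ℝ × ℝ | z.2 ≤ z.1}.indicator (fun _ => (1 : ℝ)) := by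
      funext z
      simp [indicator]
    rw [this]
    exact measurable_const.indicator (measurableSet_le measurable_snd measurable_fst)
  have hsw : ∫ x in Ioc (0 : ℝ) 1, ∫ y, ((n : ℝ) + 1) * x ^ n *
        (Iic x).indicator (fun _ => (1 : ℝ)) y ∂ν =
      ∫ y, (∫ x in Ioc (0 : ℝ) 1, ((n : ℝ) + 1) * x ^ n *
        (Iic x).indicator (fun _ => (1 : ℝ)) y) ∂ν := by
    apply integral_integral_swap
    refine Integrable.mono' (g := fun _ => (n : ℝ) + 1) (integrable_const _) ?_ ?_
    · apply Measurable.aestronglyMeasurable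
      have h1 : Measurable (fun z : ℝ × ℝ => ((n : ℝ) + 1) * z.1 ^ n) := by fun_prop
      exact h1.mul hm
    · have h2 : ∀ᵐ z ∂((volume.restrict (Ioc (0 : ℝ) 1)).prod ν), z.1 ∈ Ioc (0 : ℝ) 1 :=
        Measure.quasiMeasurePreserving_fst.ae (ae_restrict_mem measurableSet_Ioc)
      filter_upwards [h2] with z hz
      simp only [Function.uncurry]
      rw [Real.norm_eq_abs, abs_mul, abs_mul, abs_of_nonneg (by positivity : (0 : ℝ) ≤ (n : ℝ) + 1),
        abs_of_nonneg (pow_nonneg hz.1.le n)]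
      have h3 : z.1 ^ n ≤ 1 := pow_le_one₀ hz.1.le hz.2
      have h4 : |(Iic z.1).indicator (fun _ => (1 : ℝ)) z.2| ≤ 1 := by
        unfold indicator
        split_ifs <;> simp
      calc ((n : ℝ) + 1) * z.1 ^ n * |(Iic z.1).indicator (fun _ => (1 : ℝ)) z.2|
          ≤ ((n : ℝ) + 1) * 1 * 1 := by
            gcongr
        _ = (n : ℝ) + 1 := by ring
  have hL : ∫ x in Ioc (0 : ℝ) 1, ∫ y, ((n : ℝ) + 1) * x ^ n *
        (Iic x).indicator (fun _ => (1 : ℝ)) y ∂ν =
      ((n : ℝ) + 1) * ∫ x in (0 : ℝ)..1, cdf' ν x * x ^ n := by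
    rw [intervalIntegral.integral_of_le zero_le_one, ← integral_const_mul]
    apply integral_congr_ae
    filter_upwards with x
    rw [integral_const_mul, integral_indicator_const _ measurableSet_Iic, smul_eq_mul, cdf']
    ring
  have hR : ∫ y, (∫ x in Ioc (0 : ℝ) 1, ((n : ℝ) + 1) * x ^ n *
        (Iic x).indicator (fun _ => (1 : ℝ)) y) ∂ν = ν.real univ - ∫ x, x ^ (n + 1) ∂ν := by
    have h5 : ν.real univ - ∫ x, x ^ (n + 1) ∂ν = ∫ y, (1 - y ^ (n + 1)) ∂ν := by
      rw [integral_sub (integrable_const _) (integrable_pow hν _)]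
      simp
    rw [h5]
    apply integral_congr_ae
    filter_upwards [ae_mem hν] with y hy
    have h6 : ∫ x in Ioc (0 : ℝ) 1, ((n : ℝ) + 1) * x ^ n * (Iic x).indicator (fun _ => (1 : ℝ)) y =
        ∫ x in Icc (0 : ℝ) 1, (Ici y).indicator (fun x => ((n : ℝ) + 1) * x ^ n) x := by
      rw [integral_Icc_eq_integral_Ioc]
      apply integral_congr_ae
      filter_upwards with x
      unfold indicator
      simp only [mem_Iic, mem_Ici]
      split_ifs <;> simp
    rw [h6, setIntegral_indicator measurableSet_Ici]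
    have h7 : Icc (0 : ℝ) 1 ∩ Ici y = Icc y 1 := by
      ext x
      simp only [mem_inter_iff, mem_Icc, mem_Ici]
      constructor
      · rintro ⟨⟨_, h2⟩, h3⟩; exact ⟨h3, h2⟩
      · rintro ⟨h2, h3⟩; exact ⟨⟨hy.1.trans h2, h3⟩, h2⟩
    rw [h7, integral_Icc_eq_integral_Ioc, ← intervalIntegral.integral_of_le hy.2,
      intervalIntegral.integral_const_mul, integral_pow]
    field_simp
    simp
  rw [← hL, hsw, hR]

/-- A continuous nondecreasing function on `[0,1]` is a distribution function. -/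
theorem exists_measure (g : ℝ → ℝ) (hc : ContinuousOn g (Icc 0 1)) (hg : MonotoneOn g (Icc 0 1)) :
    ∃ ν : Measure ℝ, IsFiniteMeasure ν ∧ ν (Icc 0 1)ᶜ = 0 ∧
      ∀ x ∈ Icc (0 : ℝ) 1, cdf' ν x = g x - g 0 := by
  set h : ℝ → ℝ := fun x => g (max 0 (min x 1)) with hh
  have hmem : ∀ x : ℝ, max 0 (min x 1) ∈ Icc (0 : ℝ) 1 := fun x =>
    ⟨le_max_left _ _, max_le zero_le_one (min_le_right _ _)⟩
  have hmono : Monotone h := by
    intro x y hxy
    exact hg (hmem x) (hmem y) (max_le_max le_rfl (min_le_min hxy le_rfl))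
  have hcont : Continuous h := by
    have h1 : Continuous (fun x : ℝ => max 0 (min x 1)) := by fun_prop
    exact hc.comp_continuous h1 hmem
  let f : StieltjesFunction ℝ := ⟨h, hmono, fun x => hcont.continuousWithinAt⟩
  have hneg : ∀ x ≤ (0 : ℝ), h x = g 0 := by
    intro x hx
    simp only [hh]
    rw [min_eq_left (hx.trans zero_le_one), max_eq_left hx]
  have hpos : ∀ x, (1 : ℝ) ≤ x → h x = g 1 := by
    intro x hx
    simp only [hh]
    rw [min_eq_right hx, max_eq_right zero_le_one]
  have hin : ∀ x ∈ Icc (0 : ℝ) 1, h x = g x := by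
    intro x hx
    simp only [hh]
    rw [min_eq_left hx.2, max_eq_right hx.1]
  have hbot : Tendsto f atBot (𝓝 (g 0)) := by
    apply tendsto_const_nhds.congr'
    filter_upwards [eventually_le_atBot 0] with x hx
    exact (hneg x hx).symm
  have htop : Tendsto f atTop (𝓝 (g 1)) := by
    apply tendsto_const_nhds.congr'
    filter_upwards [eventually_ge_atTop 1] with x hx
    exact (hpos x hx).symm
  refine ⟨f.measure, f.isFiniteMeasure hbot htop, ?_, ?_⟩
  · have h1 : (Icc (0 : ℝ) 1)ᶜ = Iio 0 ∪ Ioi 1 := by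
      ext x
      simp only [mem_compl_iff, mem_Icc, not_and_or, not_le, mem_union, mem_Iio, mem_Ioi]
    rw [h1]
    apply measure_union_null
    · rw [f.measure_Iio hbot]
      have h2 : Function.leftLim f 0 = g 0 := by
        rw [← hneg 0 le_rfl]
        exact ContinuousWithinAt.leftLim_eq (f := h) (hcont.continuousAt.continuousWithinAt)
      rw [h2]; simp
    · rw [f.measure_Ioi htop]
      have h3 : f 1 = g 1 := hpos 1 le_rfl
      rw [h3]; simp
  · intro x hx
    rw [cdf', Measure.real, f.measure_Iic hbot, ENNReal.toReal_ofReal]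
    · have h3 : f x = g x := hin x hx
      rw [h3]
    · have h3 : f x = g x := hin x hx
      rw [h3, sub_nonneg]
      exact hg (left_mem_Icc.mpr zero_le_one) hx hx.1

/-- `A ω n = n ∫ ω x^(n-1)` for `n ≥ 1` and `A ω 0 = 1`. -/
noncomputable def A (ω : ℝ → ℝ) (n : ℕ) : ℝ :=
  if n = 0 then 1 else n * ∫ x in (0 : ℝ)..1, ω x * x ^ (n - 1)

theorem lam_eq (ω₁ ω₂ : ℝ → ℝ) (n : ℕ) : lam ω₁ ω₂ n = A ω₁ n * (A ω₂ n)⁻¹ := by
  unfold lam A
  by_cases hn : n = 0
  · simp [hn]
  · simp only [hn, if_false]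
    have : (n : ℝ) ≠ 0 := by exact_mod_cast hn
    rw [mul_inv]
    field_simp

/-- If `ω = 1 + s F` on `[0,1]`, with `F` the distribution function of `ν`, then `A ω` is expressed
by the moments of `ν`. -/
theorem A_eq (ω : ℝ → ℝ) (s : ℝ) (ν : Measure ℝ) [IsFiniteMeasure ν] (hν : ν (Icc 0 1)ᶜ = 0)
    (h : ∀ x ∈ Icc (0 : ℝ) 1, ω x = 1 + s * cdf' ν x) (n : ℕ) :
    A ω n = 1 + s * (ν.real univ - ∫ x, x ^ n ∂ν) := by
  unfold A
  rcases n with _ | n
  · simp
  · rw [if_neg (Nat.succ_ne_zero n), Nat.add_sub_cancel]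
    have hmeas : Measurable (cdf' ν) := (cdf'_mono ν).measurable
    have hint : IntervalIntegrable (fun x => cdf' ν x * x ^ n) volume 0 1 := by
      rw [intervalIntegrable_iff_integrableOn_Ioc_of_le zero_le_one]
      refine Integrable.mono' (g := fun _ => ν.real univ) (integrable_const _) ?_ ?_
      · exact (hmeas.mul (by fun_prop)).aestronglyMeasurable
      · filter_upwards [ae_restrict_mem measurableSet_Ioc] with x hx
        rw [Real.norm_eq_abs, abs_mul, abs_of_nonneg (pow_nonneg hx.1.le n),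
          abs_of_nonneg (show 0 ≤ cdf' ν x from measureReal_nonneg)]
        calc cdf' ν x * x ^ n ≤ cdf' ν x * 1 := by
              apply mul_le_mul_of_nonneg_left (pow_le_one₀ hx.1.le hx.2) measureReal_nonneg
          _ ≤ ν.real univ := by
              rw [mul_one]; exact measureReal_mono (subset_univ _)
    have h1 : ∫ x in (0 : ℝ)..1, ω x * x ^ n =
        (∫ x in (0 : ℝ)..1, x ^ n) + s * ∫ x in (0 : ℝ)..1, cdf' ν x * x ^ n := by
      rw [← intervalIntegral.integral_const_mul, ← intervalIntegral.integral_add]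
      · apply intervalIntegral.integral_congr
        intro x hx
        rw [uIcc_of_le zero_le_one] at hx
        simp only
        rw [h x hx]; ring
      · exact (continuous_pow n).intervalIntegrable _ _
      · exact hint.const_mul s
    have h2 := fub ν hν n
    rw [h1, integral_pow]
    push_cast
    have h3 : ((n : ℝ) + 1) * (s * ∫ x in (0 : ℝ)..1, cdf' ν x * x ^ n) =
        s * (ν.real univ - ∫ x, x ^ (n + 1) ∂ν) := by
      rw [← h2]; ring
    rw [mul_add, h3]
    field_simp
    simp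

end Pool.Agent.Y257.HM
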