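import Mathlib
import Pool.Agent.Y257.HM.Weight

/-!
# The moment functional and test functions
-/

set_option autoImplicit false

open MeasureTheory Set Filter Topology
open scoped ENNReal

namespace Pool.Agent.Y257.HM

open Pool.Agent.Results.MP_d888c7_an.NoBVSolution (IsWeight lam IsRSIntegral functional_bound)

/-- the functional given by the difference of two measures -/
noncomputable def D (P N : Measure ℝ) (p : ℝ → ℝ) : ℝ := (∫ x, p x ∂P) - ∫ x, p x ∂N

theorem integrable_cont {μ : Measure ℝ} [IsFiniteMeasure μ] (h : μ (Icc 0 1)ᶜ = 0) {f : ℝ → ℝ}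
    (hf : Continuous f) : Integrable f μ := by
  obtain ⟨C, hC⟩ := isCompact_Icc.exists_bound_of_continuousOn (s := Icc (0 : ℝ) 1)
    hf.continuousOn
  exact integrable_of_bdd h hf.measurable (C := C) fun x hx => by simpa using hC x hx

theorem integral_close {μ : Measure ℝ} [IsFiniteMeasure μ] (h : μ (Icc 0 1)ᶜ = 0) {f g : ℝ → ℝ}
    (hf : Continuous f) (hg : Continuous g) {ε : ℝ} (hfg : ∀ x ∈ Icc (0 : ℝ) 1, |f x - g x| ≤ ε) :
    |(∫ x, f x ∂μ) - ∫ x, g x ∂μ| ≤ ε * μ.real univ := by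
  rw [← integral_sub (integrable_cont h hf) (integrable_cont h hg), ← Real.norm_eq_abs]
  exact norm_integral_le_of_norm_le_const ((ae_mem h).mono fun x hx => by
    rw [Real.norm_eq_abs]; exact hfg x hx)

theorem D_close {P N : Measure ℝ} [IsFiniteMeasure P] [IsFiniteMeasure N] (hP : P (Icc 0 1)ᶜ = 0)
    (hN : N (Icc 0 1)ᶜ = 0) {f g : ℝ → ℝ} (hf : Continuous f) (hg : Continuous g) {ε : ℝ}
    (hfg : ∀ x ∈ Icc (0 : ℝ) 1, |f x - g x| ≤ ε) :
    |D P N f - D P N g| ≤ ε * (P.real univ + N.real univ) := by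
  have h1 := integral_close hP hf hg hfg
  have h2 := integral_close hN hf hg hfg
  unfold D
  have e : (∫ x, f x ∂P) - (∫ x, f x ∂N) - ((∫ x, g x ∂P) - ∫ x, g x ∂N) =
      ((∫ x, f x ∂P) - ∫ x, g x ∂P) - ((∫ x, f x ∂N) - ∫ x, g x ∂N) := by ring
  rw [e]
  have := abs_sub ((∫ x, f x ∂P) - ∫ x, g x ∂P) ((∫ x, f x ∂N) - ∫ x, g x ∂N)
  linarith

theorem D_poly {P N : Measure ℝ} [IsFiniteMeasure P] [IsFiniteMeasure N] (hP : P (Icc 0 1)ᶜ = 0)
    (hN : N (Icc 0 1)ᶜ = 0) (q : Polynomial ℝ) (x : ℝ) :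
    D P N (fun y => q.eval (x * y)) = ∑ n ∈ Finset.range (q.natDegree + 1),
      q.coeff n * D P N (fun y => y ^ n) * x ^ n := by
  have h : ∀ μ : Measure ℝ, IsFiniteMeasure μ → μ (Icc 0 1)ᶜ = 0 →
      ∫ y, q.eval (x * y) ∂μ = ∑ n ∈ Finset.range (q.natDegree + 1),
        q.coeff n * (∫ y, y ^ n ∂μ) * x ^ n := by
    intro μ _ hμ
    have e : (fun y => q.eval (x * y)) = fun y => ∑ n ∈ Finset.range (q.natDegree + 1),
        (q.coeff n * x ^ n) * y ^ n := by
      funext y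
      rw [Polynomial.eval_eq_sum_range]
      apply Finset.sum_congr rfl
      intro k _
      rw [mul_pow]; ring
    rw [e, integral_finset_sum]
    · apply Finset.sum_congr rfl
      intro k _
      rw [integral_const_mul]; ring
    · intro k _
      exact (integrable_pow hμ k).const_mul _
  unfold D
  rw [h P inferInstance hP, h N inferInstance hN, ← Finset.sum_sub_distrib]
  apply Finset.sum_congr rfl
  intro k _
  ring

/-- Simultaneous approximation of a test function by a polynomial. -/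
theorem approx {P₁ N₁ P₂ N₂ : Measure ℝ} [IsFiniteMeasure P₁] [IsFiniteMeasure N₁]
    [IsFiniteMeasure P₂] [IsFiniteMeasure N₂] (hP₁ : P₁ (Icc 0 1)ᶜ = 0) (hN₁ : N₁ (Icc 0 1)ᶜ = 0)
    (hP₂ : P₂ (Icc 0 1)ᶜ = 0) (hN₂ : N₂ (Icc 0 1)ᶜ = 0) (p : ℝ → ℝ) (hp : Continuous p)
    {ε : ℝ} (hε : 0 < ε) :
    ∃ (N : ℕ) (c : ℕ → ℝ),
      (∀ x ∈ Icc (0 : ℝ) 1, |D P₂ N₂ (fun y => p (x * y)) -
        ∑ n ∈ Finset.range (N + 1), c n * D P₂ N₂ (fun y => y ^ n) * x ^ n| ≤ ε) ∧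
      |D P₁ N₁ p - ∑ n ∈ Finset.range (N + 1), c n * D P₁ N₁ (fun y => y ^ n)| ≤ ε := by
  set K := (P₁.real univ + N₁.real univ) + (P₂.real univ + N₂.real univ) + 1 with hK
  have hK1 : 0 ≤ P₁.real univ + N₁.real univ := by positivity
  have hK2 : 0 ≤ P₂.real univ + N₂.real univ := by positivity
  have hK0 : 0 < K := by positivity
  obtain ⟨q, hq⟩ := exists_polynomial_near_of_continuousOn 0 1 p hp.continuousOn (ε / K)
    (by positivity)
  have hqc : Continuous (fun y => q.eval y) := q.continuous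
  refine ⟨q.natDegree, q.coeff, ?_, ?_⟩
  · intro x hx
    rw [← D_poly hP₂ hN₂ q x]
    have h1 := D_close hP₂ hN₂ (f := fun y => p (x * y)) (g := fun y => q.eval (x * y))
      (by fun_prop) (by fun_prop) (ε := ε / K) (fun y hy => by
        rw [abs_sub_comm]
        exact (hq (x * y) ⟨mul_nonneg hx.1 hy.1, mul_le_one₀ hx.2 hy.1 hy.2⟩).le)
    refine h1.trans ?_
    rw [div_mul_eq_mul_div, div_le_iff₀ hK0]
    gcongr
    rw [hK]; linarith
  · have h0 := D_poly hP₁ hN₁ q 1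
    simp only [one_mul, one_pow, mul_one] at h0
    rw [← h0]
    have h1 := D_close hP₁ hN₁ (f := p) (g := fun y => q.eval y)
      hp hqc (ε := ε / K) (fun y hy => by
        rw [abs_sub_comm]
        exact (hq y hy).le)
    refine h1.trans ?_
    rw [div_mul_eq_mul_div, div_le_iff₀ hK0]
    gcongr
    rw [hK]; linarith

theorem pos_key {P₁ N₁ P₂ N₂ : Measure ℝ} [IsFiniteMeasure P₁] [IsFiniteMeasure N₁]
    [IsFiniteMeasure P₂] [IsFiniteMeasure N₂] (hP₁ : P₁ (Icc 0 1)ᶜ = 0) (hN₁ : N₁ (Icc 0 1)ᶜ = 0)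
    (hP₂ : P₂ (Icc 0 1)ᶜ = 0) (hN₂ : N₂ (Icc 0 1)ᶜ = 0) (l : ℕ → ℝ)
    (hl : ∀ (N : ℕ) (c : ℕ → ℝ), (∀ x ∈ Icc (0 : ℝ) 1, 0 ≤ ∑ n ∈ Finset.range N, c n * x ^ n) →
      0 ≤ ∑ n ∈ Finset.range N, c n * l n)
    (hrel : ∀ n, l n * D P₂ N₂ (fun y => y ^ n) = D P₁ N₁ (fun y => y ^ n))
    (p : ℝ → ℝ) (hp : Continuous p) (h : ∀ x ∈ Icc (0 : ℝ) 1, 0 ≤ D P₂ N₂ (fun y => p (x * y))) :
    0 ≤ D P₁ N₁ p := by
  have hl0 : 0 ≤ l 0 := by
    have := hl 1 (fun _ => 1) (by intro x _; simp)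
    simpa using this
  by_contra hneg
  rw [not_le] at hneg
  set ε := - D P₁ N₁ p / (2 * (l 0 + 1)) with hε
  have hε0 : 0 < ε := by
    rw [hε]
    apply div_pos (by linarith) (by linarith)
  obtain ⟨N, c, h1, h2⟩ := approx hP₁ hN₁ hP₂ hN₂ p hp hε0
  have h3 := hl (N + 1) (fun n => c n * D P₂ N₂ (fun y => y ^ n) + if n = 0 then ε else 0) (by
    intro x hx
    have h4 : ∑ n ∈ Finset.range (N + 1),
        (c n * D P₂ N₂ (fun y => y ^ n) + if n = 0 then ε else 0) * x ^ n =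
        (∑ n ∈ Finset.range (N + 1), c n * D P₂ N₂ (fun y => y ^ n) * x ^ n) + ε := by
      simp only [add_mul, Finset.sum_add_distrib, ite_mul, zero_mul]
      simp
    rw [h4]
    have h5 := (abs_le.mp (h1 x hx)).2
    have h6 := h x hx
    linarith)
  have h7 : ∑ n ∈ Finset.range (N + 1),
      (c n * D P₂ N₂ (fun y => y ^ n) + if n = 0 then ε else 0) * l n =
      (∑ n ∈ Finset.range (N + 1), c n * D P₁ N₁ (fun y => y ^ n)) + ε * l 0 := by
    simp only [add_mul, Finset.sum_add_distrib, ite_mul, zero_mul]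
    congr 1
    · apply Finset.sum_congr rfl
      intro n _
      rw [← hrel n]; ring
    · simp
  rw [h7] at h3
  have h8 := (abs_le.mp h2).1
  have h9 : 2 * (l 0 + 1) * ε = - D P₁ N₁ p := by
    rw [hε]
    field_simp
  nlinarith

theorem bv_key {P₁ N₁ P₂ N₂ : Measure ℝ} [IsFiniteMeasure P₁] [IsFiniteMeasure N₁]
    [IsFiniteMeasure P₂] [IsFiniteMeasure N₂] (hP₁ : P₁ (Icc 0 1)ᶜ = 0) (hN₁ : N₁ (Icc 0 1)ᶜ = 0)
    (hP₂ : P₂ (Icc 0 1)ᶜ = 0) (hN₂ : N₂ (Icc 0 1)ᶜ = 0) (l : ℕ → ℝ) (V : ℝ)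
    (hl : ∀ (N : ℕ) (c : ℕ → ℝ) (M : ℝ),
      (∀ x ∈ Icc (0 : ℝ) 1, |∑ n ∈ Finset.range N, c n * x ^ n| ≤ M) →
      |∑ n ∈ Finset.range N, c n * l n| ≤ V * M)
    (hrel : ∀ n, l n * D P₂ N₂ (fun y => y ^ n) = D P₁ N₁ (fun y => y ^ n))
    (p : ℝ → ℝ) (hp : Continuous p) (M : ℝ)
    (h : ∀ x ∈ Icc (0 : ℝ) 1, |D P₂ N₂ (fun y => p (x * y))| ≤ M) :
    |D P₁ N₁ p| ≤ V * M := by
  have hV0 : 0 ≤ V := by
    have := hl 0 (fun _ => 0) 1 (by simp)
    simpa using this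
  apply le_of_forall_pos_le_add
  intro η hη
  set ε := η / (V + 1) with hε
  have hε0 : 0 < ε := by positivity
  obtain ⟨N, c, h1, h2⟩ := approx hP₁ hN₁ hP₂ hN₂ p hp hε0
  have h3 := hl (N + 1) (fun n => c n * D P₂ N₂ (fun y => y ^ n)) (M + ε) (by
    intro x hx
    have h5 := abs_le.mp (h1 x hx)
    have h6 := abs_le.mp (h x hx)
    rw [abs_le]
    constructor <;> linarith)
  have h7 : ∑ n ∈ Finset.range (N + 1), (c n * D P₂ N₂ (fun y => y ^ n)) * l n =
      ∑ n ∈ Finset.range (N + 1), c n * D P₁ N₁ (fun y => y ^ n) := by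
    apply Finset.sum_congr rfl
    intro n _
    rw [← hrel n]; ring
  rw [h7] at h3
  have h8 := abs_le.mp h2
  have h9 := abs_le.mp h3
  have h10 : V * ε + ε = η := by
    rw [hε]
    field_simp
  rw [abs_le]
  constructor <;> nlinarith

/-- The moment functional of a nondecreasing function is positive. -/
theorem functional_pos (β : ℝ → ℝ) (l : ℕ → ℝ) (hβ : MonotoneOn β (Icc 0 1))
    (hl : ∀ n, IsRSIntegral (fun x => x ^ n) β (l n)) (N : ℕ) (c : ℕ → ℝ)
    (hc : ∀ x ∈ Icc (0 : ℝ) 1, 0 ≤ ∑ n ∈ Finset.range N, c n * x ^ n) :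
    0 ≤ ∑ n ∈ Finset.range N, c n * l n := by
  by_contra hneg
  rw [not_le] at hneg
  set C := ∑ n ∈ Finset.range N, |c n| with hC
  have hC0 : 0 ≤ C := Finset.sum_nonneg (fun _ _ => abs_nonneg _)
  set ε := - (∑ n ∈ Finset.range N, c n * l n) / (2 * (C + 1)) with hε
  have hε0 : 0 < ε := by
    rw [hε]
    exact div_pos (by linarith) (by linarith)
  choose δ hδ0 hδ using fun n => hl n ε hε0
  obtain ⟨d, hd0, hd⟩ : ∃ d > 0, ∀ n ∈ Finset.range N, d ≤ δ n := by
    rcases (Finset.range N).eq_empty_or_nonempty with h | h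
    · exact ⟨1, one_pos, by simp [h]⟩
    · refine ⟨(Finset.range N).inf' h δ, ?_, fun n hn => Finset.inf'_le _ hn⟩
      rw [gt_iff_lt, Finset.lt_inf'_iff]
      exact fun n _ => hδ0 n
  obtain ⟨K, hK⟩ := exists_nat_gt (1 / d)
  have hK0 : (0 : ℝ) < K := lt_trans (by positivity) hK
  have hKd : 1 / (K : ℝ) < d := by
    rw [div_lt_iff₀ hK0]
    rw [div_lt_iff₀ hd0] at hK
    linarith
  let t : ℕ → ℝ := fun i => min ((i : ℝ) / K) 1
  have ht0 : t 0 = 0 := by simp [t]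
  have htK : t K = 1 := by simp [t, hK0.ne']
  have htmono : Monotone t := by
    intro i j hij
    apply min_le_min_right
    gcongr
  have ht01 : ∀ i, t i ∈ Icc (0 : ℝ) 1 :=
    fun i => ⟨le_min (by positivity) zero_le_one, min_le_right _ _⟩
  have htd : ∀ i, t (i + 1) - t i < d := by
    intro i
    have h1 : t (i + 1) - t i ≤ 1 / K := by
      have h2 : t (i + 1) ≤ t i + 1 / K := by
        have h3 : ((i + 1 : ℕ) : ℝ) / K = (i : ℝ) / K + 1 / K := by push_cast; ring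
        simp only [t]
        rw [h3, ← min_add_add_right]
        apply min_le_min_left
        have : 0 < 1 / (K : ℝ) := by positivity
        linarith
      linarith
    linarith
  have hsum : ∀ n ∈ Finset.range N,
      |∑ i ∈ Finset.range K, (t i) ^ n * (β (t (i + 1)) - β (t i)) - l n| < ε := by
    intro n hn
    apply hδ n K t t ht0 htK
    intro i _
    exact ⟨htmono (Nat.le_succ i), (htd i).trans_le (hd n hn),
      left_mem_Icc.mpr (htmono (Nat.le_succ i))⟩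
  have hsplit : ∑ n ∈ Finset.range N, c n * l n =
      ∑ i ∈ Finset.range K, (∑ n ∈ Finset.range N, c n * (t i) ^ n) * (β (t (i + 1)) - β (t i)) -
      ∑ n ∈ Finset.range N, c n *
        (∑ i ∈ Finset.range K, (t i) ^ n * (β (t (i + 1)) - β (t i)) - l n) := by
    have h1 : ∑ i ∈ Finset.range K,
        (∑ n ∈ Finset.range N, c n * (t i) ^ n) * (β (t (i + 1)) - β (t i)) =
        ∑ n ∈ Finset.range N, c n *
          ∑ i ∈ Finset.range K, (t i) ^ n * (β (t (i + 1)) - β (t i)) := by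
      simp only [Finset.sum_mul, Finset.mul_sum]
      rw [Finset.sum_comm]
      simp only [mul_assoc]
    rw [h1, ← Finset.sum_sub_distrib]
    apply Finset.sum_congr rfl
    intro n _
    ring
  have hfirst : 0 ≤ ∑ i ∈ Finset.range K,
      (∑ n ∈ Finset.range N, c n * (t i) ^ n) * (β (t (i + 1)) - β (t i)) := by
    apply Finset.sum_nonneg
    intro i _
    apply mul_nonneg (hc _ (ht01 i))
    rw [sub_nonneg]
    exact hβ (ht01 i) (ht01 (i + 1)) (htmono (Nat.le_succ i))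
  have hsecond : |∑ n ∈ Finset.range N, c n *
        (∑ i ∈ Finset.range K, (t i) ^ n * (β (t (i + 1)) - β (t i)) - l n)| ≤ C * ε := by
    apply (Finset.abs_sum_le_sum_abs _ _).trans
    rw [hC, Finset.sum_mul]
    apply Finset.sum_le_sum
    intro n hn
    rw [abs_mul]
    exact mul_le_mul_of_nonneg_left (hsum n hn).le (abs_nonneg _)
  have h9 : 2 * (C + 1) * ε = - (∑ n ∈ Finset.range N, c n * l n) := by
    rw [hε]
    field_simp
  have h10 := (abs_le.mp hsecond).2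
  nlinarith

end Pool.Agent.Y257.HM
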