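import Mathlib
import Pool.Agent.Y257.HM.Key

/-!
# Admissible pairs of weights, and existence of solutions
-/

set_option autoImplicit false

open MeasureTheory Set Filter Topology
open scoped ENNReal

namespace Pool.Agent.Y257.HM

open Pool.Agent.Results.MP_d888c7_an.NoBVSolution (IsWeight lam IsRSIntegral)

/-- The assumptions of the problem on the pair of weights `ω₁, ω₂`. -/
structure Admissible (ω₁ ω₂ : ℝ → ℝ) : Prop where
  weight₁ : IsWeight ω₁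
  weight₂ : IsWeight ω₂
  mono₁ : MonotoneOn ω₁ (Icc 0 1) ∨ AntitoneOn ω₁ (Icc 0 1)
  mono₂ : MonotoneOn ω₂ (Icc 0 1) ∨ AntitoneOn ω₂ (Icc 0 1)
  ratio : AntitoneOn (fun x => ω₁ x / ω₂ x) (Icc 0 1)

theorem mem0 : (0 : ℝ) ∈ Icc (0 : ℝ) 1 := ⟨le_rfl, zero_le_one⟩
theorem mem1 : (1 : ℝ) ∈ Icc (0 : ℝ) 1 := ⟨zero_le_one, le_rfl⟩

theorem Admissible.pos {ω₁ ω₂ : ℝ → ℝ} (h : Admissible ω₁ ω₂) : 0 < ω₁ 1 := h.weight₁.pos 1 mem1

theorem Admissible.le {ω₁ ω₂ : ℝ → ℝ} (h : Admissible ω₁ ω₂) : ω₁ 1 ≤ ω₂ 1 := by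
  have h1 := h.ratio mem0 mem1 zero_le_one
  simp only [h.weight₁.map_zero, h.weight₂.map_zero, div_one] at h1
  rwa [div_le_one (h.weight₂.pos 1 mem1)] at h1

theorem Admissible.eqOn {ω₁ ω₂ : ℝ → ℝ} (h : Admissible ω₁ ω₂) (he : ω₁ 1 = ω₂ 1) :
    ∀ x ∈ Icc (0 : ℝ) 1, ω₁ x = ω₂ x := by
  intro x hx
  have h1 := h.ratio mem0 hx hx.1
  have h2 := h.ratio hx mem1 hx.2
  simp only [h.weight₁.map_zero, h.weight₂.map_zero, div_one] at h1
  simp only at h2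
  rw [he, div_self (h.weight₂.pos 1 mem1).ne'] at h2
  have h3 : ω₁ x / ω₂ x = 1 := le_antisymm h1 h2
  rwa [div_eq_one_iff_eq (h.weight₂.pos x hx).ne'] at h3

theorem lam_one {ω₁ ω₂ : ℝ → ℝ} (h : Admissible ω₁ ω₂) (he : ω₁ 1 = ω₂ 1) (n : ℕ) :
    lam ω₁ ω₂ n = 1 := by
  unfold lam
  split_ifs with hn
  · rfl
  · have h1 : ∫ x in (0 : ℝ)..1, ω₁ x * x ^ (n - 1) = ∫ x in (0 : ℝ)..1, ω₂ x * x ^ (n - 1) := by
      apply intervalIntegral.integral_congr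
      intro x hx
      rw [uIcc_of_le zero_le_one] at hx
      simp only [h.eqOn he x hx]
    rw [h1]
    have h2 : 0 < ∫ x in (0 : ℝ)..1, ω₂ x * x ^ (n - 1) := by
      apply intervalIntegral.intervalIntegral_pos_of_pos_on
      · apply ContinuousOn.intervalIntegrable
        rw [uIcc_of_le zero_le_one]
        exact h.weight₂.continuousOn.mul (by fun_prop)
      · intro x hx
        exact mul_pos (h.weight₂.pos x ⟨hx.1.le, hx.2.le⟩) (pow_pos hx.1 _)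
      · exact one_pos
    exact mul_inv_cancel₀ h2.ne'

/-- A nonincreasing weight: `A ω = c + m` with `m` a positive moment sequence of mass `1 - c`. -/
theorem A_antitone {ω : ℝ → ℝ} (h : IsWeight ω) (ha : AntitoneOn ω (Icc 0 1)) :
    ∃ m : ℕ → ℝ, IsMom m ∧ m 0 = 1 - ω 1 ∧ ∀ n, A ω n = ω 1 + m n := by
  obtain ⟨ν, hν, hν0, hνc⟩ := exists_measure (fun x => - ω x) h.continuousOn.neg ha.neg
  have hu : ν.real univ = 1 - ω 1 := by
    have h1 := hνc 1 mem1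
    rw [cdf', h.map_zero] at h1
    have h2 : ν.real (Iic 1) = ν.real univ := by
      apply measureReal_congr
      apply ae_eq_univ.mpr
      apply measure_mono_null _ hν0
      intro x hx hx'
      exact hx hx'.2
    linarith
  refine ⟨fun n => ∫ x, x ^ n ∂ν, ⟨ν, hν, hν0, fun n => rfl⟩, by simp [hu], ?_⟩
  intro n
  rw [A_eq ω (-1) ν hν0 (fun x hx => by rw [hνc x hx, h.map_zero]; ring) n, hu]
  ring

/-- A nondecreasing weight: `A ω = c - m` with `m` a positive moment sequence of mass `c - 1`. -/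
theorem A_monotone {ω : ℝ → ℝ} (h : IsWeight ω) (ha : MonotoneOn ω (Icc 0 1)) :
    ∃ m : ℕ → ℝ, IsMom m ∧ m 0 = ω 1 - 1 ∧ ∀ n, A ω n = ω 1 - m n := by
  obtain ⟨ν, hν, hν0, hνc⟩ := exists_measure ω h.continuousOn ha
  have hu : ν.real univ = ω 1 - 1 := by
    have h1 := hνc 1 mem1
    rw [cdf', h.map_zero] at h1
    have h2 : ν.real (Iic 1) = ν.real univ := by
      apply measureReal_congr
      apply ae_eq_univ.mpr
      apply measure_mono_null _ hν0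
      intro x hx hx'
      exact hx hx'.2
    linarith
  refine ⟨fun n => ∫ x, x ^ n ∂ν, ⟨ν, hν, hν0, fun n => rfl⟩, by simp [hu], ?_⟩
  intro n
  rw [A_eq ω 1 ν hν0 (fun x hx => by rw [hνc x hx, h.map_zero]; ring) n, hu]
  ring

theorem inv_monotone {ω : ℝ → ℝ} (h : IsWeight ω) (ha : MonotoneOn ω (Icc 0 1)) :
    IsMom (fun n => (A ω n)⁻¹) := by
  obtain ⟨m, hm, hm0, hA⟩ := A_monotone h ha
  have hc := h.pos 1 mem1
  have h1 : IsMom (fun n => (ω 1)⁻¹ * m n) := hm.smul (inv_pos.mpr hc).le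
  have h2 : (ω 1)⁻¹ * m 0 < 1 := by
    rw [hm0, inv_mul_lt_iff₀ hc]; linarith
  have h3 := (h1.geom h2).smul (inv_pos.mpr hc).le
  convert h3 using 2 with n
  rw [hA n, ← mul_inv]
  congr 1
  field_simp

theorem inv_antitone {ω : ℝ → ℝ} (h : IsWeight ω) (ha : AntitoneOn ω (Icc 0 1)) (hc2 : 1 / 2 < ω 1) :
    IsDiff (fun n => (A ω n)⁻¹) := by
  obtain ⟨m, hm, hm0, hA⟩ := A_antitone h ha
  have hc := h.pos 1 mem1
  have h1 : IsMom (fun n => (ω 1)⁻¹ * m n) := hm.smul (inv_pos.mpr hc).le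
  have h2 : (ω 1)⁻¹ * m 0 < 1 := by
    rw [hm0, inv_mul_lt_iff₀ hc]; linarith
  have h20 : 0 ≤ (ω 1)⁻¹ * m 0 := h1.nonneg 0
  have h3 : IsMom (fun n => (1 - ((ω 1)⁻¹ * m n) * ((ω 1)⁻¹ * m n))⁻¹) := by
    apply IsMom.geom (h1.mul h1)
    nlinarith
  have h4 : IsDiff (fun n => 1 - (ω 1)⁻¹ * m n) := isMom_one.isDiff.sub h1.isDiff
  have h5 := (isMom_const (inv_pos.mpr hc).le).isDiff.mul (h4.mul h3.isDiff)
  convert h5 using 2 with n
  have h6 : (ω 1)⁻¹ * m n < 1 := lt_of_le_of_lt (h1.le_zero n) h2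
  have h7 : 0 ≤ (ω 1)⁻¹ * m n := h1.nonneg n
  have h8 : 1 - ((ω 1)⁻¹ * m n) * ((ω 1)⁻¹ * m n) = (1 - (ω 1)⁻¹ * m n) * (1 + (ω 1)⁻¹ * m n) := by
    ring
  have h9 : (1 - (ω 1)⁻¹ * m n) ≠ 0 := by linarith
  have h10 : A ω n = ω 1 * (1 + (ω 1)⁻¹ * m n) := by
    rw [hA n]; field_simp
  rw [h8, h10, mul_inv, mul_inv, ← mul_assoc (1 - (ω 1)⁻¹ * m n), mul_inv_cancel₀ h9, one_mul]

theorem A_isDiff {ω : ℝ → ℝ} (h : IsWeight ω)
    (hm : MonotoneOn ω (Icc 0 1) ∨ AntitoneOn ω (Icc 0 1)) : IsDiff (A ω) := by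
  have hc := (h.pos 1 mem1).le
  rcases hm with hm | hm
  · obtain ⟨m, hm, _, hA⟩ := A_monotone h hm
    have := (isMom_const hc).isDiff.sub hm.isDiff
    convert this using 2 with n
    exact hA n
  · obtain ⟨m, hm, _, hA⟩ := A_antitone h hm
    have := (isMom_const hc).isDiff.add hm.isDiff
    convert this using 2 with n
    exact hA n

/-- Solutions of bounded variation exist as soon as `ω₂ 1 > 1/2`. -/
theorem bv_exists {ω₁ ω₂ : ℝ → ℝ} (h : Admissible ω₁ ω₂) (hc : 1 / 2 < ω₂ 1) :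
    ∃ β : ℝ → ℝ, BoundedVariationOn β (Icc 0 1) ∧
      ∀ n : ℕ, IsRSIntegral (fun x => x ^ n) β (lam ω₁ ω₂ n) := by
  have h2 : IsDiff (fun n => (A ω₂ n)⁻¹) := by
    rcases h.mono₂ with hm | hm
    · exact (inv_monotone h.weight₂ hm).isDiff
    · exact inv_antitone h.weight₂ hm hc
  have h3 := (A_isDiff h.weight₁ h.mono₁).mul h2
  have h4 : lam ω₁ ω₂ = fun n => A ω₁ n * (A ω₂ n)⁻¹ := funext (lam_eq ω₁ ω₂)
  rw [h4]
  exact h3.solution

/-- Nondecreasing solutions exist as soon as `ω₁ 1 ≤ 1 ≤ ω₂ 1`. -/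
theorem mono_exists {ω₁ ω₂ : ℝ → ℝ} (h : Admissible ω₁ ω₂) (h1 : ω₁ 1 ≤ 1) (h2 : 1 ≤ ω₂ 1) :
    ∃ β : ℝ → ℝ, MonotoneOn β (Icc 0 1) ∧
      ∀ n : ℕ, IsRSIntegral (fun x => x ^ n) β (lam ω₁ ω₂ n) := by
  have ha1 : AntitoneOn ω₁ (Icc 0 1) := by
    rcases h.mono₁ with hm | hm
    · intro x hx y hy _
      have e1 := hm mem0 hx hx.1
      have e2 := hm hy mem1 hy.2
      rw [h.weight₁.map_zero] at e1
      linarith
    · exact hm
  have ha2 : MonotoneOn ω₂ (Icc 0 1) := by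
    rcases h.mono₂ with hm | hm
    · exact hm
    · intro x hx y hy _
      have e1 := hm mem0 hx hx.1
      have e2 := hm hy mem1 hy.2
      rw [h.weight₂.map_zero] at e1
      linarith
  obtain ⟨m, hm, _, hA⟩ := A_antitone h.weight₁ ha1
  have h3 : IsMom (A ω₁) := by
    have := (isMom_const (h.weight₁.pos 1 mem1).le).add hm
    convert this using 2 with n
    exact hA n
  have h4 : lam ω₁ ω₂ = fun n => A ω₁ n * (A ω₂ n)⁻¹ := funext (lam_eq ω₁ ω₂)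
  obtain ⟨β, hβ, hs⟩ := (h3.mul (inv_monotone h.weight₂ ha2)).solution
  rw [h4]
  exact ⟨β, hβ.monotoneOn _, hs⟩

theorem one_exists : ∃ β : ℝ → ℝ, Monotone β ∧
    ∀ n : ℕ, IsRSIntegral (fun x => x ^ n) β ((fun _ => 1 : ℕ → ℝ) n) := isMom_one.solution

end Pool.Agent.Y257.HM
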