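import Mathlib
import Pool.Agent.Y257.HM.Pos

/-!
# Weights built from atomless probability measures
-/

set_option autoImplicit false

open MeasureTheory Set Filter Topology
open scoped ENNReal

namespace Pool.Agent.Y257.HM

open Pool.Agent.Results.MP_d888c7_an.NoBVSolution (IsWeight lam IsRSIntegral)

/-- An atomless probability measure on `(0,1]` which vanishes near `0`. -/
structure Good (ν : Measure ℝ) : Prop where
  prob : IsProbabilityMeasure ν
  carried : ν (Icc 0 1)ᶜ = 0
  zero : ∃ δ : ℝ, 0 < δ ∧ ν (Iio δ) = 0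
  atomless : ∀ x, ν {x} = 0

theorem Good.continuous {ν : Measure ℝ} (h : Good ν) : Continuous (cdf' ν) := by
  haveI := h.prob
  have h1 : cdf' ν = ProbabilityTheory.cdf ν := by
    funext x
    rw [cdf', ProbabilityTheory.cdf_eq_real]
  rw [h1, continuous_iff_continuousAt]
  intro x
  rw [(ProbabilityTheory.cdf ν).mono.continuousAt_iff_leftLim_eq_rightLim,
    StieltjesFunction.rightLim_eq]
  have h2 := (ProbabilityTheory.cdf ν).measure_singleton x
  rw [ProbabilityTheory.measure_cdf, h.atomless x] at h2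
  have h3 := ENNReal.ofReal_eq_zero.mp h2.symm
  have h4 := (ProbabilityTheory.cdf ν).mono.leftLim_le (le_refl x)
  linarith

theorem Good.zero' {ν : Measure ℝ} (h : Good ν) : ∃ δ : ℝ, 0 < δ ∧ ∀ x < δ, cdf' ν x = 0 := by
  obtain ⟨δ, h1, h2⟩ := h.zero
  refine ⟨δ, h1, fun x hx => ?_⟩
  have h3 : ν (Iic x) = 0 := measure_mono_null (fun y hy => lt_of_le_of_lt hy hx) h2
  rw [cdf', Measure.real, h3, ENNReal.toReal_zero]

theorem Good.univ {ν : Measure ℝ} (h : Good ν) : ν.real univ = 1 := by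
  haveI := h.prob
  simp

theorem Good.one {ν : Measure ℝ} (h : Good ν) {b : ℝ} (hb : ν (Ioi b) = 0) {x : ℝ} (hx : b ≤ x) :
    cdf' ν x = 1 := by
  haveI := h.prob
  rw [← h.univ, cdf']
  apply measureReal_congr
  apply ae_eq_univ.mpr
  apply measure_mono_null _ hb
  intro y hy
  simp only [mem_compl_iff, mem_Iic, not_le] at hy
  exact lt_of_le_of_lt hx hy

theorem Good.Ioi_one {ν : Measure ℝ} (h : Good ν) : ν (Ioi 1) = 0 := by
  apply measure_mono_null _ h.carried
  intro y hy hy'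
  exact not_lt.mpr hy'.2 hy

theorem Good.mem {ν : Measure ℝ} (h : Good ν) (x : ℝ) : cdf' ν x ∈ Icc (0 : ℝ) 1 := by
  haveI := h.prob
  refine ⟨measureReal_nonneg, ?_⟩
  rw [← h.univ]
  exact measureReal_mono (subset_univ _)

theorem Good.mono {ν : Measure ℝ} (h : Good ν) : Monotone (cdf' ν) := by
  haveI := h.prob
  exact cdf'_mono ν

theorem isWeight_of (ω : ℝ → ℝ) (hc : Continuous ω) (hpos : ∀ x ∈ Icc (0 : ℝ) 1, 0 < ω x)
    (h0 : ∃ δ : ℝ, 0 < δ ∧ ∀ x < δ, ω x = 1) : IsWeight ω := by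
  obtain ⟨δ, hδ, h1⟩ := h0
  refine ⟨hc.continuousOn, hpos, h1 0 hδ, hc.continuousOn.integrableOn_compact isCompact_Icc, ?_⟩
  obtain ⟨C, hC⟩ := isCompact_Icc.exists_bound_of_continuousOn (s := Icc (0 : ℝ) 1)
    (f := fun x => 1 - ω x) (by fun_prop)
  have hC0 : 0 ≤ C := (norm_nonneg _).trans (hC 0 mem0)
  refine Integrable.mono' (g := fun _ => C * δ⁻¹) (integrable_const _) ?_ ?_
  · apply Measurable.aestronglyMeasurable
    have := hc.measurable
    fun_prop
  · filter_upwards [ae_restrict_mem measurableSet_Ioc] with x hx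
    rw [Real.norm_eq_abs, abs_mul, abs_abs]
    rcases lt_or_ge x δ with h2 | h2
    · rw [h1 x h2]
      simp only [sub_self, abs_zero, zero_mul]
      positivity
    · rw [abs_of_pos (inv_pos.mpr hx.1)]
      have h3 := hC x ⟨hx.1.le, hx.2⟩
      rw [Real.norm_eq_abs] at h3
      have h4 : x⁻¹ ≤ δ⁻¹ := inv_anti₀ hδ h2
      exact mul_le_mul h3 h4 (inv_pos.mpr hx.1).le hC0

/-- the weight `1 + s F` -/
noncomputable def W (s : ℝ) (ν : Measure ℝ) (x : ℝ) : ℝ := 1 + s * cdf' ν x

theorem W_weight {ν : Measure ℝ} (h : Good ν) {s : ℝ} (hs : -1 < s) : IsWeight (W s ν) := by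
  apply isWeight_of
  · unfold W
    exact continuous_const.add (continuous_const.mul h.continuous)
  · intro x _
    have h1 := h.mem x
    unfold W
    rcases le_or_gt 0 s with h2 | h2
    · have := mul_nonneg h2 h1.1
      linarith
    · nlinarith [h1.1, h1.2]
  · obtain ⟨δ, h1, h2⟩ := h.zero'
    exact ⟨δ, h1, fun x hx => by unfold W; rw [h2 x hx]; ring⟩

theorem W_one {ν : Measure ℝ} (h : Good ν) (s : ℝ) : W s ν 1 = 1 + s := by
  unfold W
  rw [h.one h.Ioi_one le_rfl, mul_one]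

/-- The pairs of nonincreasing weights of the counterexamples. -/
theorem down_admissible {ν : Measure ℝ} (h : Good ν) {c₁ c₂ : ℝ} (h0 : 0 < c₁) (h1 : c₁ < c₂)
    (h2 : c₂ < 1) : Admissible (W (c₁ - 1) ν) (W (c₂ - 1) ν) := by
  have hanti : ∀ s : ℝ, s ≤ 0 → AntitoneOn (W s ν) (Icc 0 1) := by
    intro s hs x _ y _ hxy
    unfold W
    have := mul_le_mul_of_nonpos_left (h.mono hxy) hs
    linarith
  refine ⟨W_weight h (by linarith), W_weight h (by linarith), Or.inr (hanti _ (by linarith)),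
    Or.inr (hanti _ (by linarith)), ?_⟩
  intro x hx y hy hxy
  have e1 := (W_weight h (s := c₂ - 1) (by linarith)).pos x hx
  have e2 := (W_weight h (s := c₂ - 1) (by linarith)).pos y hy
  simp only
  rw [div_le_div_iff₀ e2 e1]
  unfold W
  have h3 := h.mono hxy
  nlinarith

end Pool.Agent.Y257.HM
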