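import Mathlib
import Pool.Agent.Y257.HM.Good
import Pool.Agent.Y257.HM.Cantor

/-!
# Pairs without a solution of bounded variation, for all end values `0 < c₁ < c₂ ≤ 1/2`
-/

set_option autoImplicit false

open MeasureTheory Set Filter Topology
open scoped ENNReal

namespace Pool.Agent.Y257.HM

open Pool.Agent.Results.MP_d888c7_an.NoBVSolution (IsWeight lam IsRSIntegral functional_bound)

/-- the measure `c δ₁ + (1 - c) ν` -/
noncomputable def Pm (c : ℝ) (ν : Measure ℝ) : Measure ℝ :=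
  ENNReal.ofReal c • Measure.dirac 1 + ENNReal.ofReal (1 - c) • ν

theorem Pm_finite (c : ℝ) (ν : Measure ℝ) [IsFiniteMeasure ν] : IsFiniteMeasure (Pm c ν) := by
  unfold Pm
  have h1 : IsFiniteMeasure (ENNReal.ofReal c • (Measure.dirac 1 : Measure ℝ)) :=
    Measure.smul_finite _ ENNReal.ofReal_ne_top
  have h2 : IsFiniteMeasure (ENNReal.ofReal (1 - c) • ν) :=
    Measure.smul_finite _ ENNReal.ofReal_ne_top
  infer_instance

theorem Pm_carried (c : ℝ) (ν : Measure ℝ) (hν : ν (Icc 0 1)ᶜ = 0) : (Pm c ν) (Icc 0 1)ᶜ = 0 := by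
  unfold Pm
  rw [Measure.add_apply, Measure.smul_apply, Measure.smul_apply, hν,
    Measure.dirac_apply' _ measurableSet_Icc.compl]
  simp

theorem Pm_D {c : ℝ} (h0 : 0 ≤ c) (h1 : c ≤ 1) (ν : Measure ℝ) [IsFiniteMeasure ν]
    (hν : ν (Icc 0 1)ᶜ = 0) (p : ℝ → ℝ) (hp : Continuous p) :
    D (Pm c ν) 0 p = c * p 1 + (1 - c) * ∫ x, p x ∂ν := by
  unfold D Pm
  have e1 : Integrable p (ENNReal.ofReal c • (Measure.dirac 1 : Measure ℝ)) := by
    apply Integrable.smul_measure _ ENNReal.ofReal_ne_top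
    exact integrable_dirac (by simp)
  have e2 : Integrable p (ENNReal.ofReal (1 - c) • ν) :=
    (integrable_cont hν hp).smul_measure ENNReal.ofReal_ne_top
  rw [integral_add_measure e1 e2, integral_smul_measure, integral_smul_measure, integral_dirac,
    ENNReal.toReal_ofReal h0, ENNReal.toReal_ofReal (by linarith), integral_zero_measure, sub_zero,
    smul_eq_mul, smul_eq_mul]

theorem W_A {ν : Measure ℝ} (h : Good ν) (c : ℝ) (n : ℕ) :
    A (W (c - 1) ν) n = c + (1 - c) * ∫ x, x ^ n ∂ν := by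
  have := h.prob
  rw [A_eq (W (c - 1) ν) (c - 1) ν h.carried (fun x _ => rfl) n, h.univ]
  ring

theorem down_rel {ν : Measure ℝ} (h : Good ν) {c₁ c₂ : ℝ} (h0 : 0 < c₁) (h1 : c₁ < c₂)
    (h2 : c₂ < 1) (n : ℕ) :
    lam (W (c₁ - 1) ν) (W (c₂ - 1) ν) n * D (Pm c₂ ν) 0 (fun y => y ^ n) =
      D (Pm c₁ ν) 0 (fun y => y ^ n) := by
  have := h.prob
  have hn : 0 ≤ ∫ x, x ^ n ∂ν :=
    integral_nonneg_of_ae ((ae_mem h.carried).mono fun x hx => pow_nonneg hx.1 n)
  rw [Pm_D (by linarith) (by linarith) ν h.carried _ (by fun_prop),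
    Pm_D (by linarith) (by linarith) ν h.carried _ (by fun_prop), one_pow, mul_one, mul_one,
    lam_eq, W_A h, W_A h]
  have h3 : 0 < c₂ + (1 - c₂) * ∫ x, x ^ n ∂ν := by
    have := mul_nonneg (by linarith : (0 : ℝ) ≤ 1 - c₂) hn
    linarith
  rw [mul_assoc, inv_mul_cancel₀ h3.ne', mul_one]

/-- the Mellin transform of `ν` on the real line, `∫ y^|a| dν` -/
noncomputable def L (ν : Measure ℝ) (a : ℝ) : ℝ := ∫ y, y ^ |a| ∂ν

theorem ae_pos {ν : Measure ℝ} (h : Good ν) : ∀ᵐ y ∂ν, 0 < y ∧ y < 1 := by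
  obtain ⟨δ, hδ, h2⟩ := h.zero
  have e1 : ∀ᵐ y ∂ν, ¬ y < δ := by
    rw [ae_iff]
    simp only [not_not]
    exact h2
  have e2 : ∀ᵐ y ∂ν, y ≠ 1 := by
    rw [ae_iff]
    simpa using h.atomless 1
  filter_upwards [ae_mem h.carried, e1, e2] with y h3 h4 h5
  exact ⟨lt_of_lt_of_le hδ (not_lt.mp h4), lt_of_le_of_ne h3.2 h5⟩

theorem L_continuous {ν : Measure ℝ} (h : Good ν) : Continuous (L ν) := by
  have := h.prob
  unfold L
  apply continuous_of_dominated (bound := fun _ => 1)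
  · intro a
    apply Measurable.aestronglyMeasurable
    fun_prop
  · intro a
    filter_upwards [ae_pos h] with y hy
    rw [Real.norm_eq_abs, abs_of_nonneg (Real.rpow_nonneg hy.1.le _)]
    exact Real.rpow_le_one hy.1.le hy.2.le (abs_nonneg a)
  · exact integrable_const _
  · filter_upwards [ae_pos h] with y hy
    exact (Real.continuous_const_rpow hy.1.ne').comp continuous_abs

theorem L_zero {ν : Measure ℝ} (h : Good ν) : L ν 0 = 1 := by
  have := h.prob
  simp [L]

theorem L_tendsto {ν : Measure ℝ} (h : Good ν) : Tendsto (L ν) atTop (𝓝 0) := by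
  have := h.prob
  have h1 : Tendsto (fun a : ℝ => ∫ y, y ^ |a| ∂ν) atTop (𝓝 (∫ _, (0 : ℝ) ∂ν)) := by
    apply tendsto_integral_filter_of_dominated_convergence (fun _ => (1 : ℝ))
    · filter_upwards with a
      apply Measurable.aestronglyMeasurable
      fun_prop
    · filter_upwards with a
      filter_upwards [ae_pos h] with y hy
      rw [Real.norm_eq_abs, abs_of_nonneg (Real.rpow_nonneg hy.1.le _)]
      exact Real.rpow_le_one hy.1.le hy.2.le (abs_nonneg a)
    · exact integrable_const _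
    · filter_upwards [ae_pos h] with y hy
      exact (tendsto_rpow_atTop_of_base_lt_one y (by linarith [hy.1]) hy.2).comp
        tendsto_abs_atTop_atTop
  simp only [integral_zero] at h1
  exact h1

/-- The zero of `c - (1 - c) L(a)`, approximately, at some `a > 0`. -/
theorem exists_a {ν : Measure ℝ} (h : Good ν) {c : ℝ} (h0 : 0 < c) (h1 : c ≤ 1 / 2) {η : ℝ}
    (hη : 0 < η) : ∃ a : ℝ, 0 < a ∧ |c - (1 - c) * L ν a| ≤ η := by
  set f : ℝ → ℝ := fun a => c - (1 - c) * L ν a with hf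
  have hfc : Continuous f := continuous_const.sub (continuous_const.mul (L_continuous h))
  have hf0 : f 0 ≤ 0 := by simp only [hf]; rw [L_zero h]; linarith
  have hft : Tendsto f atTop (𝓝 c) := by
    have := ((L_tendsto h).const_mul (1 - c)).const_sub c
    simpa using this
  obtain ⟨b, hb0, hb⟩ : ∃ b : ℝ, 0 ≤ b ∧ 0 ≤ f b := by
    have e1 : ∀ᶠ a in atTop, 0 < f a := hft.eventually (lt_mem_nhds h0)
    obtain ⟨b, e2, e3⟩ := (e1.and (eventually_ge_atTop 0)).exists
    exact ⟨b, e3, e2.le⟩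
  obtain ⟨a₀, ha₀, hz⟩ := intermediate_value_Icc hb0 hfc.continuousOn
    (show (0 : ℝ) ∈ Icc (f 0) (f b) from ⟨hf0, hb⟩)
  obtain ⟨δ, hδ, h2⟩ := Metric.continuousAt_iff.mp (hfc.continuousAt (x := a₀)) η hη
  refine ⟨a₀ + δ / 2, by linarith [ha₀.1], ?_⟩
  have h3 := h2 (x := a₀ + δ / 2) (by
    rw [Real.dist_eq, add_sub_cancel_left, abs_of_pos (by positivity)]; linarith)
  rw [Real.dist_eq, hz, sub_zero] at h3
  exact h3.le

/-- the test function `|x|^a cos (N log x)` -/
noncomputable def tf (a N : ℝ) (x : ℝ) : ℝ := |x| ^ a * Real.cos (N * Real.log x)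

theorem tf_continuous {a : ℝ} (ha : 0 < a) (N : ℝ) : Continuous (tf a N) := by
  rw [continuous_iff_continuousAt]
  intro x
  rcases eq_or_ne x 0 with rfl | hx
  · have h0 : tf a N 0 = 0 := by
      unfold tf
      rw [abs_zero, Real.zero_rpow ha.ne', zero_mul]
    rw [ContinuousAt, h0]
    have h1 : Tendsto (fun x : ℝ => |x| ^ a) (𝓝 0) (𝓝 0) := by
      have : ContinuousAt (fun x : ℝ => |x| ^ a) 0 :=
        (continuous_abs.continuousAt).rpow_const (Or.inr ha.le)
      have h2 := this.tendsto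
      simpa [Real.zero_rpow ha.ne'] using h2
    apply squeeze_zero_norm _ h1
    intro x
    unfold tf
    rw [Real.norm_eq_abs, abs_mul, abs_of_nonneg (Real.rpow_nonneg (abs_nonneg x) a)]
    calc |x| ^ a * |Real.cos (N * Real.log x)| ≤ |x| ^ a * 1 :=
          mul_le_mul_of_nonneg_left (Real.abs_cos_le_one _) (Real.rpow_nonneg (abs_nonneg x) a)
      _ = _ := mul_one _
  · unfold tf
    apply ContinuousAt.mul
    · exact (continuous_abs.continuousAt).rpow_const (Or.inr ha.le)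
    · exact Real.continuous_cos.continuousAt.comp
        (continuousAt_const.mul (Real.continuousAt_log hx))

theorem phase_int {ν : Measure ℝ} (h : Good ν) {a N ε : ℝ} (ha : 0 < a)
    (hN : ∀ᵐ y ∂ν, ∀ t : ℝ, |Real.cos (t + N * Real.log y) + Real.cos t| ≤ ε) (t : ℝ) :
    |(∫ y, y ^ a * Real.cos (t + N * Real.log y) ∂ν) + Real.cos t * L ν a| ≤ ε := by
  have := h.prob
  have i1 : Integrable (fun y : ℝ => y ^ a * Real.cos (t + N * Real.log y)) ν := by
    refine Integrable.mono' (integrable_const 1) ?_ ?_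
    · apply Measurable.aestronglyMeasurable
      fun_prop
    · filter_upwards [ae_pos h] with y hy
      rw [Real.norm_eq_abs, abs_mul, abs_of_nonneg (Real.rpow_nonneg hy.1.le _)]
      exact mul_le_one₀ (Real.rpow_le_one hy.1.le hy.2.le ha.le) (abs_nonneg _)
        (Real.abs_cos_le_one _)
  have i2 : Integrable (fun y : ℝ => Real.cos t * y ^ a) ν := by
    refine Integrable.mono' (integrable_const 1) ?_ ?_
    · apply Measurable.aestronglyMeasurable
      fun_prop
    · filter_upwards [ae_pos h] with y hy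
      rw [Real.norm_eq_abs, abs_mul, abs_of_nonneg (Real.rpow_nonneg hy.1.le _)]
      exact mul_le_one₀ (Real.abs_cos_le_one _) (Real.rpow_nonneg hy.1.le _)
        (Real.rpow_le_one hy.1.le hy.2.le ha.le)
  have e1 : (∫ y, y ^ a * Real.cos (t + N * Real.log y) ∂ν) + Real.cos t * L ν a =
      ∫ y, y ^ a * (Real.cos (t + N * Real.log y) + Real.cos t) ∂ν := by
    rw [L, abs_of_pos ha, ← integral_const_mul, ← integral_add i1 i2]
    congr 1
    funext y
    ring
  rw [e1, ← Real.norm_eq_abs]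
  have h2 := norm_integral_le_of_norm_le_const (μ := ν)
    (f := fun y : ℝ => y ^ a * (Real.cos (t + N * Real.log y) + Real.cos t)) (C := ε) (by
      filter_upwards [ae_pos h, hN] with y hy hy2
      rw [Real.norm_eq_abs, abs_mul, abs_of_nonneg (Real.rpow_nonneg hy.1.le _)]
      calc y ^ a * |Real.cos (t + N * Real.log y) + Real.cos t| ≤ 1 * ε :=
            mul_le_mul (Real.rpow_le_one hy.1.le hy.2.le ha.le) (hy2 t) (abs_nonneg _) zero_le_one
        _ = ε := one_mul _)
  simpa using h2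

/-- No solution of bounded variation. -/
theorem no_bv {ν : Measure ℝ} (h : Good ν)
    (hph : ∀ ε : ℝ, 0 < ε → ∃ N : ℝ, ∀ᵐ y ∂ν, ∀ t : ℝ,
      |Real.cos (t + N * Real.log y) + Real.cos t| ≤ ε)
    {c₁ c₂ : ℝ} (h0 : 0 < c₁) (h1 : c₁ < c₂) (h2 : c₂ ≤ 1 / 2) :
    ¬ ∃ β : ℝ → ℝ, BoundedVariationOn β (Icc 0 1) ∧
      ∀ n : ℕ, IsRSIntegral (fun x => x ^ n) β (lam (W (c₁ - 1) ν) (W (c₂ - 1) ν) n) := by
  rintro ⟨β, hβ, hs⟩
  have := h.prob
  have hf1 := Pm_finite c₁ ν
  have hf2 := Pm_finite c₂ ν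
  set V := (eVariationOn β (Icc 0 1)).toReal with hV
  have hV0 : 0 ≤ V := ENNReal.toReal_nonneg
  set ε := (c₂ - c₁) / (2 * V + 4) with hε
  have hε0 : 0 < ε := by
    rw [hε]; exact div_pos (by linarith) (by linarith)
  obtain ⟨a, ha, hz⟩ := exists_a h (by linarith : 0 < c₂) h2 hε0
  obtain ⟨N, hN⟩ := hph ε hε0
  have hph' := phase_int h ha hN
  have hcont := tf_continuous ha N
  have key := bv_key (P₁ := Pm c₁ ν) (N₁ := 0) (P₂ := Pm c₂ ν) (N₂ := 0)
    (Pm_carried c₁ ν h.carried) (by simp) (Pm_carried c₂ ν h.carried) (by simp)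
    (lam (W (c₁ - 1) ν) (W (c₂ - 1) ν)) V
    (fun N c M hM => functional_bound β _ hβ hs N c M hM)
    (down_rel h h0 h1 (by linarith)) (tf a N) hcont (2 * ε) (by
      intro x hx
      have hcx : Continuous (fun y => tf a N (x * y)) := hcont.comp (continuous_const.mul continuous_id)
      rw [Pm_D (by linarith) (by linarith) ν h.carried _ hcx]
      rcases eq_or_lt_of_le hx.1 with hx0 | hx0
      · rw [← hx0]
        have e0 : tf a N 0 = 0 := by
          unfold tf
          rw [abs_zero, Real.zero_rpow ha.ne', zero_mul]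
        simp only [zero_mul, e0, integral_zero, mul_zero, add_zero, abs_zero]
        positivity
      · set t := N * Real.log x with ht
        have e1 : ∫ y, tf a N (x * y) ∂ν =
            x ^ a * ∫ y, y ^ a * Real.cos (t + N * Real.log y) ∂ν := by
          rw [← integral_const_mul]
          apply integral_congr_ae
          filter_upwards [ae_pos h] with y hy
          unfold tf
          rw [abs_of_pos (mul_pos hx0 hy.1), Real.mul_rpow hx0.le hy.1.le,
            Real.log_mul hx0.ne' hy.1.ne', mul_add, ← ht]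
          ring
        have e2 : tf a N (x * 1) = x ^ a * Real.cos t := by
          unfold tf
          rw [mul_one, abs_of_pos hx0, ← ht]
        rw [e1, e2]
        have e3 := hph' t
        have e4 : c₂ * (x ^ a * Real.cos t) +
            (1 - c₂) * (x ^ a * ∫ y, y ^ a * Real.cos (t + N * Real.log y) ∂ν) =
            x ^ a * (Real.cos t * (c₂ - (1 - c₂) * L ν a) + (1 - c₂) *
              ((∫ y, y ^ a * Real.cos (t + N * Real.log y) ∂ν) + Real.cos t * L ν a)) := by
          ring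
        rw [e4, abs_mul, abs_of_nonneg (Real.rpow_nonneg hx0.le a)]
        have e5 : x ^ a ≤ 1 := Real.rpow_le_one hx0.le hx.2 ha.le
        have e6 : |Real.cos t * (c₂ - (1 - c₂) * L ν a) + (1 - c₂) *
              ((∫ y, y ^ a * Real.cos (t + N * Real.log y) ∂ν) + Real.cos t * L ν a)| ≤ 2 * ε := by
          refine (abs_add_le _ _).trans ?_
          rw [abs_mul, abs_mul]
          have e7 : |Real.cos t| * |c₂ - (1 - c₂) * L ν a| ≤ 1 * ε :=
            mul_le_mul (Real.abs_cos_le_one t) hz (abs_nonneg _) zero_le_one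
          have e8 : |1 - c₂| * |(∫ y, y ^ a * Real.cos (t + N * Real.log y) ∂ν) +
              Real.cos t * L ν a| ≤ 1 * ε := by
            apply mul_le_mul _ e3 (abs_nonneg _) zero_le_one
            rw [abs_of_nonneg (by linarith)]; linarith
          linarith
        calc x ^ a * _ ≤ 1 * (2 * ε) :=
              mul_le_mul e5 e6 (abs_nonneg _) zero_le_one
          _ = 2 * ε := one_mul _)
  rw [Pm_D (by linarith) (by linarith) ν h.carried _ hcont] at key
  have f1 : tf a N 1 = 1 := by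
    unfold tf
    simp
  have f2 : ∫ y, tf a N y ∂ν = ∫ y, y ^ a * Real.cos (0 + N * Real.log y) ∂ν := by
    apply integral_congr_ae
    filter_upwards [ae_pos h] with y hy
    unfold tf
    rw [abs_of_pos hy.1, zero_add]
  have f3 := hph' 0
  rw [Real.cos_zero, one_mul] at f3
  rw [f1, f2, mul_one] at key
  set I := ∫ y, y ^ a * Real.cos (0 + N * Real.log y) ∂ν with hI
  have g1 := (abs_le.mp key).1
  have g2 := (abs_le.mp f3).2
  have g3 := (abs_le.mp hz).2
  -- c₂ - (1 - c₂) L ≤ ε,  I + L ≤ ε,  -(V * (2 ε)) ≤ c₁ + (1 - c₁) I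
  have g4 : (2 * V + 4) * ε = c₂ - c₁ := by
    rw [hε]; field_simp
  have k1 : (0 : ℝ) < 1 - c₂ := by linarith
  have k2 : (0 : ℝ) < 1 - c₁ := by linarith
  -- multiply by 1 - c₂
  have m1 : (1 - c₁) * (I + L ν a) ≤ (1 - c₁) * ε := mul_le_mul_of_nonneg_left g2 k2.le
  have m2 : (1 - c₁) * (c₂ - (1 - c₂) * L ν a) ≤ (1 - c₁) * ε :=
    mul_le_mul_of_nonneg_left g3 k2.le
  have m3 : (1 - c₂) * (-(V * (2 * ε))) ≤ (1 - c₂) * (c₁ + (1 - c₁) * I) :=
    mul_le_mul_of_nonneg_left g1 k1.le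
  have m4 : (1 - c₂) * ((1 - c₁) * (I + L ν a)) ≤ (1 - c₂) * ((1 - c₁) * ε) :=
    mul_le_mul_of_nonneg_left m1 k1.le
  -- sum: (c₂ - c₁) ≤ (1 - c₂) 2 V ε + (1 - c₂)(1 - c₁) ε + (1 - c₁) ε
  have m5 : c₂ - c₁ ≤ (1 - c₂) * (V * (2 * ε)) + (1 - c₂) * ((1 - c₁) * ε) + (1 - c₁) * ε := by
    nlinarith
  have m6 : (1 - c₂) * (V * (2 * ε)) ≤ V * (2 * ε) := by
    have : 0 ≤ V * (2 * ε) := by positivity
    nlinarith
  have m7 : (1 - c₂) * ((1 - c₁) * ε) ≤ ε := by
    have : (1 - c₁) * ε ≤ ε := by nlinarith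
    have : 0 ≤ (1 - c₁) * ε := by positivity
    nlinarith
  have m8 : (1 - c₁) * ε ≤ ε := by nlinarith
  nlinarith

theorem exists_good : ∃ ν : Measure ℝ, Good ν ∧ ∀ ε : ℝ, 0 < ε → ∃ N : ℝ, ∀ᵐ y ∂ν, ∀ t : ℝ,
      |Real.cos (t + N * Real.log y) + Real.cos t| ≤ ε := by
  obtain ⟨ν, h1, h2, h3, h4, h5⟩ := Cantor.exists_cantor
  exact ⟨ν, ⟨h1, h2, h3, h4⟩, h5⟩

end Pool.Agent.Y257.HM
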