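import Mathlib
import Pool.Agent.Y257.HM.NegBV

/-!
# Pairs without a nondecreasing solution
-/

set_option autoImplicit false

open MeasureTheory Set Filter Topology
open scoped ENNReal

namespace Pool.Agent.Y257.HM

open Pool.Agent.Results.MP_d888c7_an.NoBVSolution (IsWeight lam IsRSIntegral functional_bound)

/-- the uniform distribution on `[a,b]` -/
noncomputable def unif (a b : ℝ) : Measure ℝ :=
  ENNReal.ofReal (b - a)⁻¹ • volume.restrict (Icc a b)

theorem unif_carried (a b : ℝ) : ∀ᵐ y ∂(unif a b), y ∈ Icc a b := by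
  unfold unif
  exact Measure.ae_smul_measure (ae_restrict_mem measurableSet_Icc) _

theorem unif_good {a b : ℝ} (ha : 0 < a) (hab : a < b) (hb : b ≤ 1) : Good (unif a b) := by
  refine ⟨⟨?_⟩, ?_, ⟨a, ha, ?_⟩, ?_⟩
  · unfold unif
    rw [Measure.smul_apply, Measure.restrict_apply_univ, Real.volume_Icc, smul_eq_mul,
      ← ENNReal.ofReal_mul (inv_nonneg.mpr (by linarith)),
      inv_mul_cancel₀ (by linarith : b - a ≠ 0), ENNReal.ofReal_one]
  · rw [measure_eq_zero_iff_ae_notMem]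
    filter_upwards [unif_carried a b] with y hy hy'
    exact hy' ⟨ha.le.trans hy.1, hy.2.trans hb⟩
  · rw [measure_eq_zero_iff_ae_notMem]
    filter_upwards [unif_carried a b] with y hy hy'
    exact not_lt.mpr hy.1 hy'
  · intro x
    unfold unif
    rw [Measure.smul_apply, Measure.restrict_apply (measurableSet_singleton x)]
    have : volume ({x} ∩ Icc a b) = 0 := measure_mono_null inter_subset_left (by simp)
    rw [this, smul_zero]

/-- the multiplicative convolution of a function with a measure -/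
noncomputable def st (ν : Measure ℝ) (g : ℝ → ℝ) (x : ℝ) : ℝ := ∫ y, g (x * y) ∂ν

theorem st_continuous (ν : Measure ℝ) [IsFiniteMeasure ν] {g : ℝ → ℝ} (hg : Continuous g) {C : ℝ}
    (hC : ∀ x, |g x| ≤ C) : Continuous (st ν g) := by
  unfold st
  apply continuous_of_dominated (bound := fun _ => C)
  · intro x
    apply Continuous.aestronglyMeasurable
    fun_prop
  · intro x
    filter_upwards with y
    rw [Real.norm_eq_abs]; exact hC _
  · exact integrable_const _
  · filter_upwards with y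
    fun_prop

theorem st_bound (ν : Measure ℝ) [IsFiniteMeasure ν] {g : ℝ → ℝ} {C : ℝ}
    (hC : ∀ x, |g x| ≤ C) (x : ℝ) : |st ν g x| ≤ C * ν.real univ := by
  unfold st
  rw [← Real.norm_eq_abs]
  exact norm_integral_le_of_norm_le_const (by
    filter_upwards with y
    rw [Real.norm_eq_abs]; exact hC _)

theorem st_integrable (ν : Measure ℝ) [IsFiniteMeasure ν] {g : ℝ → ℝ} (hg : Continuous g) {C : ℝ}
    (hC : ∀ x, |g x| ≤ C) (x : ℝ) : Integrable (fun y => g (x * y)) ν := by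
  refine Integrable.mono' (integrable_const C) (by
    apply Continuous.aestronglyMeasurable
    fun_prop) ?_
  filter_upwards with y
  rw [Real.norm_eq_abs]; exact hC _

/-- a bump supported on `[a,b]` -/
noncomputable def bump (a b : ℝ) (x : ℝ) : ℝ := max 0 ((x - a) * (b - x))

theorem bump_continuous (a b : ℝ) : Continuous (bump a b) := by unfold bump; fun_prop

theorem bump_nonneg (a b x : ℝ) : 0 ≤ bump a b x := le_max_left _ _

theorem bump_bound (a b x : ℝ) : |bump a b x| ≤ (b - a) ^ 2 := by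
  rw [abs_of_nonneg (bump_nonneg a b x)]
  unfold bump
  apply max_le (sq_nonneg _)
  nlinarith [sq_nonneg (x - a), sq_nonneg (b - x), sq_nonneg ((x - a) + (b - x)),
    sq_nonneg ((x - a) - (b - x))]

theorem bump_left {a b x : ℝ} (hab : a ≤ b) (h : x ≤ a) : bump a b x = 0 := by
  unfold bump
  apply max_eq_left
  nlinarith

theorem bump_right {a b x : ℝ} (hab : a ≤ b) (h : b ≤ x) : bump a b x = 0 := by
  unfold bump
  apply max_eq_left
  nlinarith

theorem bump_ge (a b x : ℝ) : (x - a) * (b - x) ≤ bump a b x := le_max_right _ _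

theorem no_mono_down {c₁ c₂ : ℝ} (h0 : 0 < c₁) (h1 : c₁ < c₂) (h2 : c₂ < 1) :
    ¬ ∃ β : ℝ → ℝ, MonotoneOn β (Icc 0 1) ∧
      ∀ n : ℕ, IsRSIntegral (fun x => x ^ n) β
        (lam (W (c₁ - 1) (unif (1 / 2) (3 / 5))) (W (c₂ - 1) (unif (1 / 2) (3 / 5))) n) := by
  rintro ⟨β, hβ, hs⟩
  have hgood : Good (unif (1 / 2) (3 / 5)) := unif_good (by norm_num) (by norm_num) (by norm_num)
  set ν := unif (1 / 2) (3 / 5) with hν
  have hae : ∀ᵐ y ∂ν, y ∈ Icc (1 / 2 : ℝ) (3 / 5) := unif_carried _ _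
  have := hgood.prob
  have hf1 := Pm_finite c₁ ν
  have hf2 := Pm_finite c₂ ν
  set g := bump (11 / 50) (1 / 2) with hg
  have gc : Continuous g := bump_continuous _ _
  have gC : ∀ x, |g x| ≤ (1 / 2 - 11 / 50) ^ 2 := bump_bound _ _
  set u1 := st ν g with hu1
  have u1c : Continuous u1 := st_continuous ν gc gC
  have u1C := st_bound ν gC
  set u2 := st ν u1 with hu2
  have u2c : Continuous u2 := st_continuous ν u1c u1C
  have u2C := st_bound ν u1C
  have z1 : ∀ w ≤ (9 / 25 : ℝ), u1 w = 0 := by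
    intro w hw
    rw [hu1, st]
    apply integral_eq_zero_of_ae
    filter_upwards [hae] with y hy
    apply bump_left (by norm_num)
    have hy1 := hy.1
    have hy2 := hy.2
    rcases le_or_gt 0 w with hw0 | hw0
    · calc w * y ≤ (9 / 25) * (3 / 5) := by gcongr
        _ ≤ 11 / 50 := by norm_num
    · nlinarith
  have z2 : ∀ w ≤ (3 / 5 : ℝ), u2 w = 0 := by
    intro w hw
    rw [hu2, st]
    apply integral_eq_zero_of_ae
    filter_upwards [hae] with y hy
    apply z1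
    have hy1 := hy.1
    have hy2 := hy.2
    rcases le_or_gt 0 w with hw0 | hw0
    · calc w * y ≤ (3 / 5) * (3 / 5) := by gcongr
        _ ≤ 9 / 25 := by norm_num
    · nlinarith
  have z3 : ∀ x ≤ (1 : ℝ), st ν u2 x = 0 := by
    intro x hx
    rw [st]
    apply integral_eq_zero_of_ae
    filter_upwards [hae] with y hy
    apply z2
    have hy1 := hy.1
    have hy2 := hy.2
    rcases le_or_gt 0 x with hx0 | hx0
    · calc x * y ≤ 1 * (3 / 5) := by gcongr
        _ ≤ 3 / 5 := by norm_num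
    · nlinarith
  have z4 : u1 1 = 0 := by
    rw [hu1, st]
    apply integral_eq_zero_of_ae
    filter_upwards [hae] with y hy
    rw [one_mul]
    exact bump_right (by norm_num) hy.1
  have z5 : g 1 = 0 := bump_right (by norm_num) (by norm_num)
  have lower : ∀ (f : ℝ → ℝ) (γ : ℝ), Integrable f ν → (∀ᵐ y ∂ν, γ ≤ f y) → γ ≤ ∫ y, f y ∂ν := by
    intro f γ hf hle
    have h3 := integral_mono_ae (integrable_const γ) hf hle
    simpa using h3
  have z6 : ∀ w ∈ Icc (1 / 2 : ℝ) (3 / 5), (1 / 250 : ℝ) ≤ u1 w := by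
    intro w hw
    rw [hu1, st]
    apply lower _ _ (st_integrable ν gc gC w)
    filter_upwards [hae] with y hy
    refine le_trans ?_ (bump_ge _ _ _)
    have e1 : (1 / 4 : ℝ) ≤ w * y := by
      calc (1 / 4 : ℝ) = (1 / 2) * (1 / 2) := by norm_num
        _ ≤ w * y := mul_le_mul hw.1 hy.1 (by norm_num) (by linarith [hw.1])
    have e2 : w * y ≤ 9 / 25 := by
      calc w * y ≤ (3 / 5) * (3 / 5) := mul_le_mul hw.2 hy.2 (by linarith [hy.1]) (by norm_num)
        _ = 9 / 25 := by norm_num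
    nlinarith
  have z7 : (1 / 250 : ℝ) ≤ u2 1 := by
    rw [hu2, st]
    apply lower _ _ (st_integrable ν u1c u1C 1)
    filter_upwards [hae] with y hy
    rw [one_mul]
    exact z6 y hy
  set k := (1 - c₂) / c₂ with hk
  have hc2 : 0 < c₂ := by linarith
  have hk0 : 0 < k := div_pos (by linarith) hc2
  have hck : c₂ * k = 1 - c₂ := by rw [hk]; field_simp
  set p : ℝ → ℝ := fun x => g x - k * u1 x + k ^ 2 * u2 x with hp
  have pc : Continuous p := by fun_prop
  have hpx : ∀ x, ∫ y, p (x * y) ∂ν = u1 x - k * u2 x + k ^ 2 * st ν u2 x := by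
    intro x
    have i1 := st_integrable ν gc gC x
    have i2 := (st_integrable ν u1c u1C x).const_mul k
    have i3 := (st_integrable ν u2c u2C x).const_mul (k ^ 2)
    simp only [hp]
    have i4 : Integrable (fun y => g (x * y) - k * u1 (x * y)) ν := i1.sub i2
    rw [integral_add i4 i3, integral_sub i1 i2, integral_const_mul, integral_const_mul]
    rfl
  have key := pos_key (P₁ := Pm c₁ ν) (N₁ := 0) (P₂ := Pm c₂ ν) (N₂ := 0)
    (Pm_carried c₁ ν hgood.carried) (by simp) (Pm_carried c₂ ν hgood.carried) (by simp)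
    (lam (W (c₁ - 1) ν) (W (c₂ - 1) ν))
    (fun N c hM => functional_pos β _ hβ hs N c hM)
    (down_rel hgood h0 h1 h2) p pc (by
      intro x hx
      have hcx : Continuous (fun y => p (x * y)) := pc.comp (continuous_const.mul continuous_id)
      rw [Pm_D (by linarith) (by linarith) ν hgood.carried _ hcx, hpx x, mul_one, z3 x hx.2]
      have e : c₂ * p x + (1 - c₂) * (u1 x - k * u2 x + k ^ 2 * 0) = c₂ * g x := by
        rw [← hck]
        simp only [hp]
        ring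
      rw [e]
      exact mul_nonneg hc2.le (bump_nonneg _ _ _))
  rw [Pm_D (by linarith) (by linarith) ν hgood.carried _ pc] at key
  have e1 : ∫ y, p y ∂ν = - k * u2 1 := by
    have h3 := hpx 1
    simp only [one_mul] at h3
    rw [h3, z4, z3 1 le_rfl]
    ring
  have e2 : p 1 = k ^ 2 * u2 1 := by
    simp only [hp]
    rw [z5, z4]
    ring
  rw [e1, e2] at key
  have e3 : c₁ * (k ^ 2 * u2 1) + (1 - c₁) * (-k * u2 1) = (k * u2 1) * (c₁ * k - (1 - c₁)) := by
    ring
  rw [e3] at key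
  have e4 : 0 < k * u2 1 := mul_pos hk0 (by linarith)
  have e5 : c₁ * k < 1 - c₁ := by
    rw [hk, mul_div_assoc', div_lt_iff₀ hc2]
    nlinarith
  nlinarith

/-- the first weight of the nondecreasing pairs -/
noncomputable def U₁ (c₁ : ℝ) : ℝ → ℝ := W (c₁ - 1) (unif (2 / 5) (9 / 20))

/-- the second weight of the nondecreasing pairs -/
noncomputable def U₂ (c₁ c₂ : ℝ) (x : ℝ) : ℝ :=
  U₁ c₁ x + (c₂ - c₁) * cdf' (unif (1 / 2) (3 / 5)) x

theorem good₁ : Good (unif (1 / 2) (3 / 5)) := unif_good (by norm_num) (by norm_num) (by norm_num)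
theorem good₂ : Good (unif (2 / 5) (9 / 20)) := unif_good (by norm_num) (by norm_num) (by norm_num)

theorem cdf_zero_of_lt {x : ℝ} (hx : x < 1 / 2) : cdf' (unif (1 / 2) (3 / 5)) x = 0 := by
  have h : (unif (1 / 2) (3 / 5)) (Iic x) = 0 := by
    rw [measure_eq_zero_iff_ae_notMem]
    filter_upwards [unif_carried (1 / 2) (3 / 5)] with y hy hy'
    exact absurd (hy.1.trans hy') (not_le.mpr hx)
  rw [cdf', Measure.real, h, ENNReal.toReal_zero]

theorem cdf_one_of_ge {x : ℝ} (hx : 1 / 2 ≤ x) : cdf' (unif (2 / 5) (9 / 20)) x = 1 := by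
  apply good₂.one (b := 9 / 20) _ (by linarith)
  rw [measure_eq_zero_iff_ae_notMem]
  filter_upwards [unif_carried (2 / 5) (9 / 20)] with y hy hy'
  exact absurd hy.2 (not_le.mpr hy')

theorem up_admissible {c₁ c₂ : ℝ} (h1 : 1 < c₁) (h2 : c₁ < c₂) :
    Admissible (U₁ c₁) (U₂ c₁ c₂) := by
  have w1 : IsWeight (U₁ c₁) := W_weight good₂ (by linarith)
  have m1 : Monotone (U₁ c₁) := by
    intro x y hxy
    unfold U₁ W
    have := mul_le_mul_of_nonneg_left (good₂.mono hxy) (by linarith : 0 ≤ c₁ - 1)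
    linarith
  have m2 : Monotone (U₂ c₁ c₂) := by
    intro x y hxy
    unfold U₂
    have := mul_le_mul_of_nonneg_left (good₁.mono hxy) (by linarith : 0 ≤ c₂ - c₁)
    have := m1 hxy
    linarith
  have c1 : Continuous (U₁ c₁) := by
    unfold U₁ W
    exact continuous_const.add (continuous_const.mul good₂.continuous)
  have c2 : Continuous (U₂ c₁ c₂) := by
    unfold U₂
    exact c1.add (continuous_const.mul good₁.continuous)
  have p2 : ∀ x ∈ Icc (0 : ℝ) 1, 0 < U₂ c₁ c₂ x := by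
    intro x hx
    unfold U₂
    have e1 := w1.pos x hx
    have e2 := mul_nonneg (by linarith : 0 ≤ c₂ - c₁) (good₁.mem x).1
    linarith
  have w2 : IsWeight (U₂ c₁ c₂) := by
    apply isWeight_of _ c2 p2
    refine ⟨2 / 5, by norm_num, fun x hx => ?_⟩
    have h3 : (unif (2 / 5) (9 / 20)) (Iic x) = 0 := by
      rw [measure_eq_zero_iff_ae_notMem]
      filter_upwards [unif_carried (2 / 5) (9 / 20)] with y hy hy'
      exact absurd (hy.1.trans hy') (not_le.mpr hx)
    have h4 : cdf' (unif (2 / 5) (9 / 20)) x = 0 := by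
      rw [cdf', Measure.real, h3, ENNReal.toReal_zero]
    unfold U₂ U₁ W
    rw [h4, cdf_zero_of_lt (by linarith)]
    ring
  refine ⟨w1, w2, Or.inl (m1.monotoneOn _), Or.inl (m2.monotoneOn _), ?_⟩
  intro x hx y hy hxy
  simp only
  rw [div_le_div_iff₀ (p2 y hy) (p2 x hx)]
  have e1 := w1.pos x hx
  have e2 := w1.pos y hy
  have key : U₁ c₁ y * cdf' (unif (1 / 2) (3 / 5)) x ≤ U₁ c₁ x * cdf' (unif (1 / 2) (3 / 5)) y := by
    rcases lt_or_ge x (1 / 2) with h3 | h3
    · rw [cdf_zero_of_lt h3, mul_zero]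
      exact mul_nonneg e1.le (good₁.mem y).1
    · have e3 : U₁ c₁ y = U₁ c₁ x := by
        unfold U₁ W
        rw [cdf_one_of_ge h3, cdf_one_of_ge (h3.trans hxy)]
      rw [e3]
      exact mul_le_mul_of_nonneg_left (good₁.mono hxy) e1.le
  have key2 := mul_le_mul_of_nonneg_left key (by linarith : 0 ≤ c₂ - c₁)
  unfold U₂
  nlinarith

theorem U₁_one (c₁ : ℝ) : U₁ c₁ 1 = c₁ := by
  unfold U₁
  rw [W_one good₂]; ring

theorem U₂_one (c₁ c₂ : ℝ) : U₂ c₁ c₂ 1 = c₂ := by
  unfold U₂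
  rw [U₁_one, good₁.one good₁.Ioi_one le_rfl]; ring

/-- `N₁ = (c₁ - 1) μ₂` -/
noncomputable def R₁ (c₁ : ℝ) : Measure ℝ := ENNReal.ofReal (c₁ - 1) • unif (2 / 5) (9 / 20)

/-- `N₂ = (c₁ - 1) μ₂ + (c₂ - c₁) μ₁` -/
noncomputable def R₂ (c₁ c₂ : ℝ) : Measure ℝ :=
  R₁ c₁ + ENNReal.ofReal (c₂ - c₁) • unif (1 / 2) (3 / 5)

theorem R₁_finite (c₁ : ℝ) : IsFiniteMeasure (R₁ c₁) := by
  have := good₂.prob
  exact Measure.smul_finite _ ENNReal.ofReal_ne_top

theorem R₂_finite (c₁ c₂ : ℝ) : IsFiniteMeasure (R₂ c₁ c₂) := by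
  have := good₁.prob
  have h1 := R₁_finite c₁
  have h2 : IsFiniteMeasure (ENNReal.ofReal (c₂ - c₁) • unif (1 / 2) (3 / 5)) :=
    Measure.smul_finite _ ENNReal.ofReal_ne_top
  unfold R₂
  infer_instance

theorem R₁_ae (c₁ : ℝ) : ∀ᵐ y ∂(R₁ c₁), y ∈ Icc (2 / 5 : ℝ) (9 / 20) :=
  Measure.ae_smul_measure (unif_carried _ _) _

theorem R₂_ae (c₁ c₂ : ℝ) : ∀ᵐ y ∂(R₂ c₁ c₂), y ∈ Icc (2 / 5 : ℝ) (3 / 5) := by
  unfold R₂
  rw [ae_add_measure_iff]
  constructor
  · filter_upwards [R₁_ae c₁] with y hy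
    exact ⟨hy.1, by linarith [hy.2]⟩
  · have h := Measure.ae_smul_measure (unif_carried (1 / 2) (3 / 5)) (ENNReal.ofReal (c₂ - c₁))
    filter_upwards [h] with y hy
    exact ⟨by linarith [hy.1], hy.2⟩

theorem carried_of_ae {μ : Measure ℝ} {a b : ℝ} (h : ∀ᵐ y ∂μ, y ∈ Icc a b) (ha : 0 ≤ a)
    (hb : b ≤ 1) : μ (Icc 0 1)ᶜ = 0 := by
  rw [measure_eq_zero_iff_ae_notMem]
  filter_upwards [h] with y hy hy'
  exact hy' ⟨ha.trans hy.1, hy.2.trans hb⟩

theorem R₁_cdf {c₁ : ℝ} (h1 : 1 < c₁) (x : ℝ) : U₁ c₁ x = 1 + 1 * cdf' (R₁ c₁) x := by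
  unfold U₁ W R₁ cdf'
  rw [measureReal_ennreal_smul_apply, ENNReal.toReal_ofReal (by linarith)]
  ring

theorem R₂_cdf {c₁ c₂ : ℝ} (h1 : 1 < c₁) (h2 : c₁ < c₂) (x : ℝ) :
    U₂ c₁ c₂ x = 1 + 1 * cdf' (R₂ c₁ c₂) x := by
  have i1 := good₁.prob
  have i2 := R₁_finite c₁
  have i3 : IsFiniteMeasure (ENNReal.ofReal (c₂ - c₁) • unif (1 / 2) (3 / 5)) :=
    Measure.smul_finite _ ENNReal.ofReal_ne_top
  unfold U₂
  rw [R₁_cdf h1]
  unfold R₂ cdf'
  rw [measureReal_add_apply, measureReal_ennreal_smul_apply, ENNReal.toReal_ofReal (by linarith)]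
  ring

theorem R₁_univ {c₁ : ℝ} (h1 : 1 < c₁) : (R₁ c₁).real univ = c₁ - 1 := by
  unfold R₁
  rw [measureReal_ennreal_smul_apply, ENNReal.toReal_ofReal (by linarith), good₂.univ, mul_one]

theorem R₂_univ {c₁ c₂ : ℝ} (h1 : 1 < c₁) (h2 : c₁ < c₂) : (R₂ c₁ c₂).real univ = c₂ - 1 := by
  have i1 := good₁.prob
  have i2 := R₁_finite c₁
  have i3 : IsFiniteMeasure (ENNReal.ofReal (c₂ - c₁) • unif (1 / 2) (3 / 5)) :=
    Measure.smul_finite _ ENNReal.ofReal_ne_top
  unfold R₂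
  rw [measureReal_add_apply, R₁_univ h1, measureReal_ennreal_smul_apply,
    ENNReal.toReal_ofReal (by linarith), good₁.univ]
  ring

/-- the measure `c δ₁` -/
noncomputable def Q (c : ℝ) : Measure ℝ := ENNReal.ofReal c • Measure.dirac 1

theorem Q_finite (c : ℝ) : IsFiniteMeasure (Q c) := Measure.smul_finite _ ENNReal.ofReal_ne_top

theorem Q_carried (c : ℝ) : (Q c) (Icc 0 1)ᶜ = 0 := by
  unfold Q
  rw [Measure.smul_apply, Measure.dirac_apply' _ measurableSet_Icc.compl]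
  simp

theorem Q_D {c : ℝ} (h0 : 0 ≤ c) (ρ : Measure ℝ) (p : ℝ → ℝ) :
    D (Q c) ρ p = c * p 1 - ∫ x, p x ∂ρ := by
  unfold D Q
  rw [integral_smul_measure, integral_dirac, ENNReal.toReal_ofReal h0, smul_eq_mul]

theorem up_rel {c₁ c₂ : ℝ} (h1 : 1 < c₁) (h2 : c₁ < c₂) (n : ℕ) :
    lam (U₁ c₁) (U₂ c₁ c₂) n * D (Q c₂) (R₂ c₁ c₂) (fun y => y ^ n) =
      D (Q c₁) (R₁ c₁) (fun y => y ^ n) := by
  have i2 := R₁_finite c₁
  have i3 := R₂_finite c₁ c₂
  have hc1 := carried_of_ae (R₁_ae c₁) (by norm_num) (by norm_num)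
  have hc2 := carried_of_ae (R₂_ae c₁ c₂) (by norm_num) (by norm_num)
  have a1 := A_eq (U₁ c₁) 1 (R₁ c₁) hc1 (fun x _ => R₁_cdf h1 x) n
  have a2 := A_eq (U₂ c₁ c₂) 1 (R₂ c₁ c₂) hc2 (fun x _ => R₂_cdf h1 h2 x) n
  rw [R₁_univ h1] at a1
  rw [R₂_univ h1 h2] at a2
  rw [Q_D (by linarith), Q_D (by linarith), lam_eq, a1, a2, one_pow]
  have hle : ∫ x, x ^ n ∂(R₂ c₁ c₂) ≤ c₂ - 1 := by
    rw [← R₂_univ h1 h2]
    have h3 := integral_mono_ae (integrable_pow hc2 n) (integrable_const (1 : ℝ)) (by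
      filter_upwards [ae_mem hc2] with x hx
      exact pow_le_one₀ hx.1 hx.2)
    simpa using h3
  have h4 : (c₂ * 1 - ∫ x, x ^ n ∂(R₂ c₁ c₂)) ≠ 0 := by
    have : 0 < c₂ * 1 - ∫ x, x ^ n ∂(R₂ c₁ c₂) := by linarith
    exact this.ne'
  have h5 : 1 + 1 * (c₂ - 1 - ∫ x, x ^ n ∂(R₂ c₁ c₂)) = c₂ * 1 - ∫ x, x ^ n ∂(R₂ c₁ c₂) := by ring
  rw [h5, mul_assoc, inv_mul_cancel₀ h4]
  ring

theorem no_mono_up {c₁ c₂ : ℝ} (h1 : 1 < c₁) (h2 : c₁ < c₂) :
    ¬ ∃ β : ℝ → ℝ, MonotoneOn β (Icc 0 1) ∧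
      ∀ n : ℕ, IsRSIntegral (fun x => x ^ n) β (lam (U₁ c₁) (U₂ c₁ c₂) n) := by
  rintro ⟨β, hβ, hs⟩
  have i0 := good₂.prob
  have i1 := good₁.prob
  have i2 := R₁_finite c₁
  have i3 := R₂_finite c₁ c₂
  have i4 := Q_finite c₁
  have i5 := Q_finite c₂
  have hc1 := carried_of_ae (R₁_ae c₁) (by norm_num) (by norm_num)
  have hc2 := carried_of_ae (R₂_ae c₁ c₂) (by norm_num) (by norm_num)
  have hae := R₂_ae c₁ c₂
  set ρ := R₂ c₁ c₂ with hρ
  set g := bump (9 / 25) (1 / 2) with hg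
  have gc : Continuous g := bump_continuous _ _
  have gC : ∀ x, |g x| ≤ (1 / 2 - 9 / 25) ^ 2 := bump_bound _ _
  set u := st ρ g with hu
  have uc : Continuous u := st_continuous ρ gc gC
  have uC := st_bound ρ gC
  have c2pos : 0 < c₂ := by linarith
  set p : ℝ → ℝ := fun x => g x + c₂⁻¹ * u x with hp
  have pc : Continuous p := by fun_prop
  have z1 : ∀ w ≤ (3 / 5 : ℝ), u w = 0 := by
    intro w hw
    rw [hu, st]
    apply integral_eq_zero_of_ae
    filter_upwards [hae] with y hy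
    apply bump_left (by norm_num)
    have hy1 := hy.1
    have hy2 := hy.2
    rcases le_or_gt 0 w with hw0 | hw0
    · calc w * y ≤ (3 / 5) * (3 / 5) := by gcongr
        _ ≤ 9 / 25 := by norm_num
    · nlinarith
  have z2 : ∀ x ≤ (1 : ℝ), st ρ u x = 0 := by
    intro x hx
    rw [st]
    apply integral_eq_zero_of_ae
    filter_upwards [hae] with y hy
    apply z1
    have hy1 := hy.1
    have hy2 := hy.2
    rcases le_or_gt 0 x with hx0 | hx0
    · calc x * y ≤ 1 * (3 / 5) := by gcongr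
        _ ≤ 3 / 5 := by norm_num
    · nlinarith
  have z5 : g 1 = 0 := bump_right (by norm_num) (by norm_num)
  set G := ∫ y, g y ∂(unif (2 / 5) (9 / 20)) with hG
  have hGpos : (1 / 500 : ℝ) ≤ G := by
    have h3 := integral_mono_ae (μ := unif (2 / 5) (9 / 20)) (integrable_const (1 / 500 : ℝ))
      (integrable_cont good₂.carried gc) (by
        filter_upwards [unif_carried (2 / 5) (9 / 20)] with y hy
        refine le_trans ?_ (bump_ge _ _ _)
        have hy1 := hy.1
        have hy2 := hy.2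
        nlinarith)
    simpa using h3
  have e1 : ∫ y, g y ∂(R₁ c₁) = (c₁ - 1) * G := by
    unfold R₁
    rw [integral_smul_measure, ENNReal.toReal_ofReal (by linarith), smul_eq_mul]
  have e2 : u 1 = (c₁ - 1) * G := by
    rw [hu, st]
    simp only [one_mul]
    rw [hρ, R₂, integral_add_measure, e1, integral_smul_measure]
    · have : ∫ y, g y ∂(unif (1 / 2) (3 / 5)) = 0 := by
        apply integral_eq_zero_of_ae
        filter_upwards [unif_carried (1 / 2) (3 / 5)] with y hy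
        exact bump_right (by norm_num) hy.1
      rw [this, smul_zero, add_zero]
    · exact integrable_cont hc1 gc
    · exact (integrable_cont good₁.carried gc).smul_measure ENNReal.ofReal_ne_top
  have key := pos_key (P₁ := Q c₁) (N₁ := R₁ c₁) (P₂ := Q c₂) (N₂ := ρ)
    (Q_carried c₁) hc1 (Q_carried c₂) hc2
    (lam (U₁ c₁) (U₂ c₁ c₂))
    (fun N c hM => functional_pos β _ hβ hs N c hM)
    (up_rel h1 h2) p pc (by
      intro x hx
      rw [Q_D (by linarith)]
      have e3 : ∫ y, p (x * y) ∂ρ = u x + c₂⁻¹ * st ρ u x := by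
        simp only [hp]
        rw [integral_add (st_integrable ρ gc gC x) ((st_integrable ρ uc uC x).const_mul _),
          integral_const_mul]
        rfl
      rw [e3, z2 x hx.2, mul_one]
      have e4 : c₂ * p x - (u x + c₂⁻¹ * 0) = c₂ * g x := by
        simp only [hp]
        field_simp
        ring
      rw [e4]
      exact mul_nonneg c2pos.le (bump_nonneg _ _ _))
  rw [Q_D (by linarith)] at key
  have e5 : ∫ y, p y ∂(R₁ c₁) = (c₁ - 1) * G := by
    have e6 : ∫ y, u y ∂(R₁ c₁) = 0 := by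
      apply integral_eq_zero_of_ae
      filter_upwards [R₁_ae c₁] with y hy
      apply z1
      linarith [hy.2]
    simp only [hp]
    rw [integral_add (integrable_cont hc1 gc) ((integrable_cont hc1 uc).const_mul _),
      integral_const_mul, e1, e6]
    ring
  have e7 : p 1 = c₂⁻¹ * ((c₁ - 1) * G) := by
    simp only [hp]
    rw [z5, e2, zero_add]
  rw [e5, e7] at key
  have e8 : c₁ * (c₂⁻¹ * ((c₁ - 1) * G)) - (c₁ - 1) * G = - ((c₁ - 1) * G * (1 - c₁ / c₂)) := by
    rw [div_eq_mul_inv]; ring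
  rw [e8] at key
  have e9 : 0 < 1 - c₁ / c₂ := by
    rw [sub_pos, div_lt_one c2pos]; exact h2
  have e10 : 0 < (c₁ - 1) * G := mul_pos (by linarith) (by linarith)
  have e11 := mul_pos e10 e9
  linarith

end Pool.Agent.Y257.HM
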